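import Pool.Agent.T2H75.CF.Stm

set_option autoImplicit false

open Polynomial

namespace Pool.Agent.T2H75.CF

namespace PkgALG1

lemma eval_derivative_prod {m : ℕ} (s : Finset (Fin m)) (f : Fin m → ℂ[X]) (z : ℂ)
    (h : ∀ j, (f j).eval z ≠ 0) :
    (derivative (∏ j ∈ s, f j)).eval z =
      (∏ j ∈ s, f j).eval z * ∑ j ∈ s, (derivative (f j)).eval z / (f j).eval z := by
  classical
  induction s using Finset.induction_on with
  | empty => simp
  | insert a s ha ih =>
    rw [Finset.prod_insert ha, Finset.sum_insert ha, derivative_mul, eval_add, eval_mul, eval_mul,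
      ih, eval_mul]
    have := h a
    field_simp

end PkgALG1

/-- ALG1: the Wronskian at a point. -/
theorem pALG1 : S_ALG1 := by
  intro m k b z hk hz h1 h2
  have e1 : (derivative (∏ j, (1 - C (b j) * X))).eval z =
      (∏ j, (1 - C (b j) * X)).eval z * ∑ j, (- b j) / (1 - b j * z) := by
    rw [PkgALG1.eval_derivative_prod Finset.univ _ z (fun j => by simpa using h1 j)]
    congr 1
    refine Finset.sum_congr rfl fun j _ => ?_
    simp
  have e2 : (derivative (∏ j, (X - C (b j)))).eval z =
      (∏ j, (X - C (b j))).eval z * ∑ j, 1 / (z - b j) := by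
    rw [PkgALG1.eval_derivative_prod Finset.univ _ z (fun j => by simpa using h2 j)]
    congr 1
    refine Finset.sum_congr rfl fun j _ => ?_
    simp
  have e3 : ∑ j, (1 - b j ^ 2) / ((1 - b j * z) * (z - b j)) =
      ∑ j, 1 / (z - b j) - ∑ j, (- b j) / (1 - b j * z) := by
    rw [← Finset.sum_sub_distrib]
    refine Finset.sum_congr rfl fun j _ => ?_
    have a1 := h1 j
    have a2 := h2 j
    field_simp
    ring
  have e4 : (derivative (X ^ k : ℂ[X])).eval z = z ^ k * ((k : ℂ) / z) := by
    rw [derivative_X_pow]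
    simp only [eval_mul, eval_pow, eval_X, eval_C]
    obtain ⟨n, rfl⟩ : ∃ n, k = n + 1 := ⟨k - 1, by omega⟩
    rw [Nat.add_sub_cancel, pow_succ]
    field_simp
  unfold wr Pp Qp
  rw [eval_sub, eval_mul, eval_mul, derivative_mul, eval_add, eval_mul, eval_mul, e1, e2, e4, e3,
    eval_mul, eval_pow, eval_X]
  ring

end Pool.Agent.T2H75.CF
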