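import Pool.Agent.T2H75.CF.Stm

/-!
# ALG2: a solution of the equations is a critically fixed rational map
-/

set_option autoImplicit false

open Polynomial

namespace Pool.Agent.T2H75.CF

namespace PkgALG2

/-- the product `∏ (1 - b_j X)` -/
noncomputable def Rp (m : ℕ) (b : Fin m → ℂ) : ℂ[X] := ∏ j, (1 - C (b j) * X)

/-- the Wronskian divided by `X^(k-1)` -/
noncomputable def W1 (m k : ℕ) (b : Fin m → ℂ) : ℂ[X] :=
  C (k : ℂ) * (Rp m b * Qp m b) +
    (X * derivative (Rp m b) * Qp m b - X * derivative (Qp m b) * Rp m b)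

lemma Pp_eq (m k : ℕ) (b : Fin m → ℂ) : Pp m k b = X ^ k * Rp m b := rfl

lemma wr_eq (m k : ℕ) (b : Fin m → ℂ) (hk : 1 ≤ k) :
    wr (Pp m k b) (Qp m b) = X ^ (k - 1) * W1 m k b := by
  obtain ⟨n, rfl⟩ : ∃ n, k = n + 1 := ⟨k - 1, by omega⟩
  unfold wr W1
  rw [Pp_eq, derivative_mul, derivative_X_pow, Nat.add_sub_cancel]
  ring

lemma deg_one_sub {b : ℂ} (hb : b ≠ 0) : (1 - C b * X : ℂ[X]).natDegree = 1 := by
  have h : (1 - C b * X : ℂ[X]) = C (-b) * X + C 1 := by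
    rw [C_neg, C_1]; ring
  rw [h]
  exact natDegree_linear (neg_ne_zero.2 hb)

lemma ne_one_sub {b : ℂ} (hb : b ≠ 0) : (1 - C b * X : ℂ[X]) ≠ 0 := by
  intro h
  have := deg_one_sub hb
  rw [h, natDegree_zero] at this
  exact absurd this (by norm_num)

lemma natDegree_Rp (m : ℕ) (b : Fin m → ℂ) (hb : ∀ j, b j ≠ 0) : (Rp m b).natDegree = m := by
  unfold Rp
  rw [natDegree_prod _ _ fun j _ => ne_one_sub (hb j),
    Finset.sum_congr rfl fun j _ => deg_one_sub (hb j)]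
  simp

lemma Rp_ne (m : ℕ) (b : Fin m → ℂ) (hb : ∀ j, b j ≠ 0) : Rp m b ≠ 0 :=
  Finset.prod_ne_zero_iff.2 fun j _ => ne_one_sub (hb j)

lemma natDegree_Qp (m : ℕ) (b : Fin m → ℂ) : (Qp m b).natDegree = m := by
  unfold Qp
  rw [natDegree_prod _ _ fun j _ => X_sub_C_ne_zero _,
    Finset.sum_congr rfl fun j _ => natDegree_X_sub_C _]
  simp

lemma natDegree_X_mul_der (p : ℂ[X]) : (X * derivative p).natDegree ≤ p.natDegree := by
  by_cases h : derivative p = 0
  · rw [h, mul_zero, natDegree_zero]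
    exact Nat.zero_le _
  · have h0 : p.natDegree ≠ 0 := by
      intro h0
      apply h
      obtain ⟨a, ha⟩ := natDegree_eq_zero.1 h0
      rw [← ha, derivative_C]
    have h1 := natDegree_derivative_lt h0
    have h2 := natDegree_mul_le (p := (X : ℂ[X])) (q := derivative p)
    rw [natDegree_X] at h2
    omega

lemma natDegree_W1 (m k : ℕ) (b : Fin m → ℂ) (hb : ∀ j, b j ≠ 0) :
    (W1 m k b).natDegree ≤ 2 * m := by
  have hR := natDegree_Rp m b hb
  have hQ := natDegree_Qp m b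
  have h1 : (C (k : ℂ) * (Rp m b * Qp m b)).natDegree ≤ 2 * m := by
    refine (natDegree_C_mul_le _ _).trans (natDegree_mul_le.trans ?_)
    omega
  have h2 : (X * derivative (Rp m b) * Qp m b).natDegree ≤ 2 * m := by
    refine natDegree_mul_le.trans ?_
    have := natDegree_X_mul_der (Rp m b)
    omega
  have h3 : (X * derivative (Qp m b) * Rp m b).natDegree ≤ 2 * m := by
    refine natDegree_mul_le.trans ?_
    have := natDegree_X_mul_der (Qp m b)
    omega
  exact natDegree_add_le_of_degree_le h1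
    ((natDegree_sub_le _ _).trans (max_le h2 h3))

lemma W1_ne (m k : ℕ) (b : Fin m → ℂ) (hk : 1 ≤ k) (hb : ∀ j, b j ≠ 0) : W1 m k b ≠ 0 := by
  intro h
  have h1 : (W1 m k b).eval 0 = (k : ℂ) * ∏ j, (-b j) := by
    unfold W1 Rp Qp
    simp [eval_prod]
  rw [h, eval_zero] at h1
  have h2 : (k : ℂ) ≠ 0 := by exact_mod_cast (show k ≠ 0 by omega)
  exact mul_ne_zero h2 (Finset.prod_ne_zero_iff.2 fun j _ => neg_ne_zero.2 (hb j)) h1.symm

lemma eval_Rp (m : ℕ) (b : Fin m → ℂ) (z : ℂ) : (Rp m b).eval z = ∏ j, (1 - b j * z) := by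
  unfold Rp
  simp [eval_prod]

lemma eval_Qp (m : ℕ) (b : Fin m → ℂ) (z : ℂ) : (Qp m b).eval z = ∏ j, (z - b j) := by
  unfold Qp
  simp [eval_prod]

lemma eval_Pp (m k : ℕ) (b : Fin m → ℂ) (z : ℂ) :
    (Pp m k b).eval z = z ^ k * ∏ j, (1 - b j * z) := by
  rw [Pp_eq, eval_mul, eval_pow, eval_X, eval_Rp]

lemma coprime (m k : ℕ) (b : Fin m → ℂ) (hb : ∀ j, b j ≠ 0) (hbb : ∀ i j, 1 - b i * b j ≠ 0) :
    IsCoprime (Pp m k b) (Qp m b) := by
  rw [Pp_eq]
  unfold Rp Qp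
  refine IsCoprime.mul_left (IsCoprime.pow_left (IsCoprime.prod_right fun j _ => ?_))
    (IsCoprime.prod_left fun i _ => IsCoprime.prod_right fun j _ => ?_)
  · refine ⟨C (b j)⁻¹, - C (b j)⁻¹, ?_⟩
    have : C (b j)⁻¹ * C (b j) = (1 : ℂ[X]) := by
      rw [← C_mul, inv_mul_cancel₀ (hb j), C_1]
    linear_combination this
  · refine ⟨C (1 - b i * b j)⁻¹, C (1 - b i * b j)⁻¹ * C (b i), ?_⟩
    have : C (1 - b i * b j)⁻¹ * (1 - C (b i) * C (b j)) = (1 : ℂ[X]) := by
      rw [← C_mul, ← C_1, ← C_sub, ← C_mul, inv_mul_cancel₀ (hbb i j)]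
    linear_combination this

/-- the sum in the Wronskian vanishes at `z i` -/
lemma crit (m k : ℕ) (b : Fin m → ℂ) (z : ℂ) (hz : z ≠ 0) (h1 : ∀ j, 1 - b j * z ≠ 0)
    (h2 : ∀ j, z - b j ≠ 0) (hzz : 1 - z * z ≠ 0)
    (hE : (k : ℂ) * (z⁻¹ - z)
      = ∑ j, ((1 - b j * z) * (z - b j)⁻¹ - (z - b j) * (1 - b j * z)⁻¹)) :
    (k : ℂ) / z - ∑ j, (1 - b j ^ 2) / ((1 - b j * z) * (z - b j)) = 0 := by
  have h3 : ∑ j, ((1 - b j * z) * (z - b j)⁻¹ - (z - b j) * (1 - b j * z)⁻¹) =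
      (1 - z * z) * ∑ j, (1 - b j ^ 2) / ((1 - b j * z) * (z - b j)) := by
    rw [Finset.mul_sum]
    refine Finset.sum_congr rfl fun j _ => ?_
    have a1 := h1 j
    have a2 := h2 j
    field_simp
    ring
  rw [h3] at hE
  have h4 : (1 - z * z) * ((k : ℂ) / z - ∑ j, (1 - b j ^ 2) / ((1 - b j * z) * (z - b j))) = 0 := by
    rw [mul_sub, ← hE]
    field_simp
    ring
  exact (mul_eq_zero.1 h4).resolve_left hzz

/-- the same at `1/z` -/
lemma crit_inv (m k : ℕ) (b : Fin m → ℂ) (z : ℂ) (hz : z ≠ 0) (h1 : ∀ j, 1 - b j * z ≠ 0)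
    (h2 : ∀ j, z - b j ≠ 0)
    (h : (k : ℂ) / z - ∑ j, (1 - b j ^ 2) / ((1 - b j * z) * (z - b j)) = 0) :
    (k : ℂ) / z⁻¹ - ∑ j, (1 - b j ^ 2) / ((1 - b j * z⁻¹) * (z⁻¹ - b j)) = 0 := by
  have h3 : ∑ j, (1 - b j ^ 2) / ((1 - b j * z⁻¹) * (z⁻¹ - b j)) =
      z ^ 2 * ∑ j, (1 - b j ^ 2) / ((1 - b j * z) * (z - b j)) := by
    rw [Finset.mul_sum]
    refine Finset.sum_congr rfl fun j _ => ?_
    have a1 := h1 j
    have a2 := h2 j
    have a3 : 1 - b j * z⁻¹ = (z - b j) * z⁻¹ := by field_simp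
    have a4 : z⁻¹ - b j = (1 - b j * z) * z⁻¹ := by field_simp
    rw [a3, a4]
    field_simp
  rw [h3]
  have h5 : ∑ j, (1 - b j ^ 2) / ((1 - b j * z) * (z - b j)) = (k : ℂ) / z := by
    linear_combination -h
  rw [h5]
  field_simp
  ring

end PkgALG2

open PkgALG2 in
theorem pALG2 (hA : S_ALG1) : S_ALG2 := by
  classical
  intro m k b z hk hb hbb hb1 hz h1 h2 hzd hzz hF hE
  have hk1 : 1 ≤ k := by omega
  -- critical points
  have hc : ∀ i, (k : ℂ) / z i - ∑ j, (1 - b j ^ 2) / ((1 - b j * z i) * (z i - b j)) = 0 :=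
    fun i => crit m k b (z i) (hz i) (h1 i) (h2 i) (hzz i i) (hE i)
  have hwz : ∀ i, (wr (Pp m k b) (Qp m b)).eval (z i) = 0 := fun i => by
    rw [hA m k b (z i) hk1 (hz i) (h1 i) (h2 i), hc i, mul_zero]
  have h1' : ∀ i j, 1 - b j * (z i)⁻¹ ≠ 0 := fun i j => by
    have a3 : 1 - b j * (z i)⁻¹ = (z i - b j) * (z i)⁻¹ := by
      have := hz i
      field_simp
    rw [a3]
    exact mul_ne_zero (h2 i j) (inv_ne_zero (hz i))
  have h2' : ∀ i j, (z i)⁻¹ - b j ≠ 0 := fun i j => by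
    have a4 : (z i)⁻¹ - b j = (1 - b j * z i) * (z i)⁻¹ := by
      have := hz i
      field_simp
    rw [a4]
    exact mul_ne_zero (h1 i j) (inv_ne_zero (hz i))
  have hwz' : ∀ i, (wr (Pp m k b) (Qp m b)).eval (z i)⁻¹ = 0 := fun i => by
    rw [hA m k b (z i)⁻¹ hk1 (inv_ne_zero (hz i)) (h1' i) (h2' i),
      crit_inv m k b (z i) (hz i) (h1 i) (h2 i) (hc i), mul_zero]
  have hW1 : ∀ w : ℂ, w ≠ 0 → (wr (Pp m k b) (Qp m b)).eval w = 0 → (W1 m k b).eval w = 0 := by
    intro w hw h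
    rw [wr_eq m k b hk1, eval_mul, eval_pow, eval_X] at h
    exact (mul_eq_zero.1 h).resolve_left (pow_ne_zero _ hw)
  have hW1ne := W1_ne m k b hk1 hb
  -- the fixed point equations
  have hQz : ∀ i, ∏ j, (z i - b j) ≠ 0 := fun i => Finset.prod_ne_zero_iff.2 fun j _ => h2 i j
  have hfix : ∀ i, z i ^ (k - 1) * ∏ j, (1 - b j * z i) = ∏ j, (z i - b j) := by
    intro i
    have h := hF i
    rw [Finset.prod_mul_distrib, Finset.prod_inv_distrib] at h
    have h3 := hQz i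
    field_simp at h
    exact h
  have hkk : ∀ w : ℂ, w ^ k = w * w ^ (k - 1) := fun w => by
    rw [← pow_succ', Nat.sub_add_cancel hk1]
  -- distinct roots
  let Z : Finset ℂ := Finset.univ.image z ∪ Finset.univ.image (fun i => (z i)⁻¹)
  have hzinj : Function.Injective z := by
    intro i j hij
    by_contra hne
    exact hzd i j hne (by rw [hij, sub_self])
  have hZcard : Z.card = 2 * m := by
    have hd : Disjoint (Finset.univ.image z) (Finset.univ.image (fun i => (z i)⁻¹)) := by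
      rw [Finset.disjoint_left]
      intro w hw hw'
      rw [Finset.mem_image] at hw hw'
      obtain ⟨i, -, rfl⟩ := hw
      obtain ⟨j, -, hj⟩ := hw'
      apply hzz i j
      rw [← hj, inv_mul_cancel₀ (hz j), sub_self]
    show (Finset.univ.image z ∪ Finset.univ.image (fun i => (z i)⁻¹)).card = 2 * m
    rw [Finset.card_union_of_disjoint hd, Finset.card_image_of_injective _ hzinj,
      Finset.card_image_of_injective _ (fun i j hij => hzinj (inv_injective hij))]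
    simp
    ring
  have hall : ∀ w : ℂ, (W1 m k b).eval w = 0 → w ∈ Z := by
    intro w hw
    by_contra hwZ
    have hsub : insert w Z ⊆ (W1 m k b).roots.toFinset := by
      intro x hx
      rw [Multiset.mem_toFinset, mem_roots hW1ne, IsRoot.def]
      rw [Finset.mem_insert] at hx
      rcases hx with rfl | hx
      · exact hw
      · rcases Finset.mem_union.1 hx with hx | hx
        · obtain ⟨i, -, rfl⟩ := Finset.mem_image.1 hx
          exact hW1 _ (hz i) (hwz i)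
        · obtain ⟨i, -, rfl⟩ := Finset.mem_image.1 hx
          exact hW1 _ (inv_ne_zero (hz i)) (hwz' i)
    have h3 := Finset.card_le_card hsub
    rw [Finset.card_insert_of_notMem hwZ, hZcard] at h3
    have h4 := (Multiset.toFinset_card_le _).trans ((W1 m k b).card_roots'.trans
      (natDegree_W1 m k b hb))
    omega
  have hQ1 : (Qp m b).eval 1 ≠ 0 := by
    rw [eval_Qp]
    exact Finset.prod_ne_zero_iff.2 fun j _ => hb1 j
  have hP1 : (Pp m k b).eval 1 = (Qp m b).eval 1 := by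
    rw [eval_Qp, eval_Pp]
    simp
  refine ⟨⟨coprime m k b hb hbb, ?_, ?_, ?_⟩, hP1, hQ1, ?_⟩
  · rw [natDegree_Qp, Pp_eq, natDegree_mul (pow_ne_zero _ X_ne_zero) (Rp_ne m b hb),
      natDegree_X_pow, natDegree_Rp m b hb]
    omega
  · intro w hw
    rcases eq_or_ne w 0 with rfl | hw0
    · rw [eval_Pp, zero_pow (by omega)]
      simp
    · have hwZ := hall w (hW1 w hw0 hw)
      rcases Finset.mem_union.1 hwZ with hx | hx
      · obtain ⟨i, -, rfl⟩ := Finset.mem_image.1 hx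
        rw [eval_Pp, eval_Qp, hkk, ← hfix i]
        ring
      · obtain ⟨i, -, rfl⟩ := Finset.mem_image.1 hx
        rw [eval_Pp, eval_Qp, hkk]
        have hzi := hz i
        have a3 : ∀ j, 1 - b j * (z i)⁻¹ = (z i - b j) * (z i)⁻¹ := fun j => by field_simp
        have a4 : ∀ j, (z i)⁻¹ - b j = (1 - b j * z i) * (z i)⁻¹ := fun j => by field_simp
        rw [Finset.prod_congr rfl fun j _ => a3 j, Finset.prod_congr rfl fun j _ => a4 j,
          Finset.prod_mul_distrib, Finset.prod_mul_distrib, ← hfix i]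
        have h5 : (z i)⁻¹ ^ (k - 1) * z i ^ (k - 1) = 1 := by
          rw [← mul_pow, inv_mul_cancel₀ hzi, one_pow]
        linear_combination ((z i)⁻¹ * (∏ j, (1 - b j * z i)) * (∏ _j : Fin m, (z i)⁻¹)) * h5
  · intro _
    rw [natDegree_Qp]
    omega
  · rw [hA m k b 1 hk1 one_ne_zero (fun j => by rw [mul_one]; exact hb1 j) hb1, hP1]
    have h6 : ∀ j, (1 - b j ^ 2) / ((1 - b j * 1) * (1 - b j)) = (1 + b j) / (1 - b j) := by
      intro j
      have := hb1 j
      rw [mul_one]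
      field_simp
      ring
    rw [Finset.sum_congr rfl fun j _ => h6 j]
    field_simp

end Pool.Agent.T2H75.CF
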