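import Pool.Agent.T2H75.CF.Stm

set_option autoImplicit false

open Polynomial

namespace Pool.Agent.T2H75.CF

namespace PkgCII

lemma norm_mk (a b : ℤ) : ‖(⟨(a : ℝ), (b : ℝ)⟩ : ℂ)‖ ≤ ((n1 a b : ℤ) : ℝ) := by
  have h := Complex.norm_le_abs_re_add_abs_im (⟨(a : ℝ), (b : ℝ)⟩ : ℂ)
  unfold n1
  push_cast
  exact h

lemma r_nonneg {A : CI} {z : ℂ} (h : A.mem z) : (0 : ℝ) ≤ A.r := (norm_nonneg _).trans h

/-- `lo` is a lower bound of `|S z|`. -/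
lemma lo_le {A : CI} {z : ℂ} (h : A.mem z) : ((A.lo : ℤ) : ℝ) ≤ ‖((S : ℤ) : ℂ) * z‖ := by
  unfold CI.mem at h
  have h1 : ‖A.c‖ ≤ ‖((S : ℤ) : ℂ) * z‖ + A.r := by
    have : A.c = ((S : ℤ) : ℂ) * z - (((S : ℤ) : ℂ) * z - A.c) := by ring
    rw [this]
    exact (norm_sub_le _ _).trans (by linarith)
  have h2 : |(A.re : ℝ)| ≤ ‖A.c‖ := by
    have := Complex.abs_re_le_norm A.c
    simpa [CI.c] using this
  have h3 : |(A.im : ℝ)| ≤ ‖A.c‖ := by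
    have := Complex.abs_im_le_norm A.c
    simpa [CI.c] using this
  have h4 : ((A.lo : ℤ) : ℝ) = max |(A.re : ℝ)| |(A.im : ℝ)| - A.r := by
    unfold CI.lo
    push_cast
    rfl
  rw [h4]
  have h5 : max |(A.re : ℝ)| |(A.im : ℝ)| ≤ ‖A.c‖ := max_le h2 h3
  linarith

end PkgCII

open PkgCII in
theorem pCII : S_CII := by
  have ne : ∀ (A : CI) (z : ℂ), A.mem z → 0 < A.lo → z ≠ 0 := by
    intro A z h hlo hz
    have := lo_le h
    rw [hz, mul_zero, norm_zero] at this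
    have h2 : (0 : ℝ) < ((A.lo : ℤ) : ℝ) := by exact_mod_cast hlo
    linarith
  refine ⟨ne, ?_⟩
  intro A x y z h hlo
  have hz := ne A z h hlo
  have hr := r_nonneg h
  have hl := lo_le h
  have hloR : (0 : ℝ) < ((A.lo : ℤ) : ℝ) := by exact_mod_cast hlo
  have hSz : ((S : ℤ) : ℂ) * z ≠ 0 := by
    intro h0
    rw [h0, norm_zero] at hl
    linarith
  have hS : ((S : ℤ) : ℂ) ≠ 0 := left_ne_zero_of_mul hSz
  unfold CI.mem at h ⊢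
  set δ : ℂ := ⟨(x : ℝ), (y : ℝ)⟩ with hδ
  have hc : (A.invc x y).c = δ := by
    simp [CI.invc, CI.c, hδ]
  rw [hc]
  set e := ((S : ℤ) : ℂ) * z - A.c with he
  have key : ((S : ℤ) : ℂ) * z⁻¹ - δ =
      ((((S : ℤ) : ℂ) * ((S : ℤ) : ℂ) - δ * A.c) - δ * e) / (((S : ℤ) : ℂ) * z) := by
    rw [eq_div_iff hSz, he]
    field_simp
    ring
  rw [key, norm_div]
  have hm : ((S : ℤ) : ℂ) * ((S : ℤ) : ℂ) - δ * A.c =
      ⟨((S * S - (A.re * x - A.im * y) : ℤ) : ℝ), (((-(A.re * y + A.im * x)) : ℤ) : ℝ)⟩ := by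
    apply Complex.ext
    · simp [hδ, CI.c]
      ring
    · simp [hδ, CI.c]
      ring
  have h1 : ‖((S : ℤ) : ℂ) * ((S : ℤ) : ℂ) - δ * A.c‖ ≤
      ((n1 (S * S - (A.re * x - A.im * y)) (A.re * y + A.im * x) : ℤ) : ℝ) := by
    rw [hm]
    refine (norm_mk _ _).trans (le_of_eq ?_)
    simp only [n1, abs_neg]
  have h2 : ‖δ‖ ≤ ((n1 x y : ℤ) : ℝ) := norm_mk x y
  have h3 : ‖(((S : ℤ) : ℂ) * ((S : ℤ) : ℂ) - δ * A.c) - δ * e‖ ≤
      ((n1 (S * S - (A.re * x - A.im * y)) (A.re * y + A.im * x) + n1 x y * A.r : ℤ) : ℝ) := by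
    refine (norm_sub_le _ _).trans ?_
    rw [norm_mul, Int.cast_add, Int.cast_mul]
    have hn : (0 : ℝ) ≤ ((n1 x y : ℤ) : ℝ) := (norm_nonneg _).trans h2
    exact add_le_add h1 (mul_le_mul h2 h (norm_nonneg _) hn)
  set N : ℤ := n1 (S * S - (A.re * x - A.im * y)) (A.re * y + A.im * x) + n1 x y * A.r with hN
  have hr2 : (((A.invc x y).r : ℤ) : ℝ) = ((N / A.lo : ℤ) : ℝ) + 1 := by
    simp only [CI.invc, hN]
    push_cast
    rfl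
  rw [hr2]
  have h4 : (N : ℝ) ≤ (((N / A.lo : ℤ) : ℝ) + 1) * ((A.lo : ℤ) : ℝ) := by
    have := Int.lt_ediv_add_one_mul_self N hlo
    exact_mod_cast this.le
  have h5 : (0 : ℝ) ≤ (N : ℝ) := (norm_nonneg _).trans h3
  calc ‖(((S : ℤ) : ℂ) * ((S : ℤ) : ℂ) - δ * A.c) - δ * e‖ / ‖((S : ℤ) : ℂ) * z‖
      ≤ (N : ℝ) / ((A.lo : ℤ) : ℝ) := div_le_div₀ h5 h3 hloR hl
    _ ≤ _ := by
      rw [div_le_iff₀ hloR]
      exact h4

end Pool.Agent.T2H75.CF
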