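import Pool.Agent.T2H75.CF.Stm

set_option autoImplicit false

open Polynomial

namespace Pool.Agent.T2H75.CF

namespace PkgCIM

lemma Spos : (0 : ℤ) < S := by unfold S; norm_num

lemma SposR : (0 : ℝ) < ((S : ℤ) : ℝ) := by exact_mod_cast Spos

lemma SneC : ((S : ℤ) : ℂ) ≠ 0 := by
  have := Spos
  exact_mod_cast this.ne'

lemma floor_le (x : ℤ) : ((x / S : ℤ) : ℝ) ≤ (x : ℝ) / ((S : ℤ) : ℝ) := by
  rw [le_div_iff₀ SposR]
  have := Int.ediv_mul_le x Spos.ne'
  exact_mod_cast this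

lemma lt_floor (x : ℤ) : (x : ℝ) / ((S : ℤ) : ℝ) ≤ ((x / S : ℤ) : ℝ) + 1 := by
  rw [div_le_iff₀ SposR]
  have := Int.lt_ediv_add_one_mul_self x Spos
  exact_mod_cast this.le

lemma norm_mk (a b : ℤ) : ‖(⟨(a : ℝ), (b : ℝ)⟩ : ℂ)‖ ≤ ((n1 a b : ℤ) : ℝ) := by
  have h := Complex.norm_le_abs_re_add_abs_im (⟨(a : ℝ), (b : ℝ)⟩ : ℂ)
  unfold n1
  push_cast
  exact h

lemma norm_c (A : CI) : ‖A.c‖ ≤ ((n1 A.re A.im : ℤ) : ℝ) := norm_mk _ _

lemma r_nonneg {A : CI} {z : ℂ} (h : A.mem z) : (0 : ℝ) ≤ A.r := (norm_nonneg _).trans h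

end PkgCIM

open PkgCIM in
theorem pCIM : S_CIM := by
  refine ⟨?_, ?_, ?_, ?_, ?_⟩
  · intro A B z w hz hw
    unfold CI.mem at *
    have hc : (A.add B).c = A.c + B.c := by
      apply Complex.ext <;> simp [CI.add, CI.c]
    have : ((S : ℤ) : ℂ) * (z + w) - (A.add B).c =
        (((S : ℤ) : ℂ) * z - A.c) + (((S : ℤ) : ℂ) * w - B.c) := by rw [hc]; ring
    rw [this]
    refine (norm_add_le _ _).trans ?_
    have hr : (((A.add B).r : ℤ) : ℝ) = (A.r : ℝ) + B.r := by simp [CI.add]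
    rw [hr]
    exact add_le_add hz hw
  · intro A B z w hz hw
    unfold CI.mem at *
    have hc : (A.sub B).c = A.c - B.c := by
      apply Complex.ext <;> simp [CI.sub, CI.c]
    have : ((S : ℤ) : ℂ) * (z - w) - (A.sub B).c =
        (((S : ℤ) : ℂ) * z - A.c) - (((S : ℤ) : ℂ) * w - B.c) := by rw [hc]; ring
    rw [this]
    refine (norm_sub_le _ _).trans ?_
    have hr : (((A.sub B).r : ℤ) : ℝ) = (A.r : ℝ) + B.r := by simp [CI.sub]
    rw [hr]
    exact add_le_add hz hw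
  · intro A z hz
    unfold CI.mem at *
    have hc : A.neg.c = -A.c := by
      apply Complex.ext <;> simp [CI.neg, CI.c]
    have : ((S : ℤ) : ℂ) * (-z) - A.neg.c = -(((S : ℤ) : ℂ) * z - A.c) := by rw [hc]; ring
    rw [this, norm_neg]
    exact hz
  · intro k A z hz
    unfold CI.mem at *
    have hc : (A.smul k).c = (k : ℂ) * A.c := by
      apply Complex.ext <;> simp [CI.smul, CI.c]
    have : ((S : ℤ) : ℂ) * ((k : ℂ) * z) - (A.smul k).c =
        (k : ℂ) * (((S : ℤ) : ℂ) * z - A.c) := by rw [hc]; ring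
    rw [this, norm_mul, Complex.norm_natCast]
    have hr : (((A.smul k).r : ℤ) : ℝ) = (k : ℝ) * A.r := by simp [CI.smul]
    rw [hr]
    exact mul_le_mul_of_nonneg_left hz (Nat.cast_nonneg k)
  · intro A B z w hz hw
    have hA0 := r_nonneg hz
    have hB0 := r_nonneg hw
    unfold CI.mem at *
    set e1 := ((S : ℤ) : ℂ) * z - A.c with he1
    set e2 := ((S : ℤ) : ℂ) * w - B.c with he2
    have hSz : ((S : ℤ) : ℂ) * z = A.c + e1 := by rw [he1]; ring
    have hSw : ((S : ℤ) : ℂ) * w = B.c + e2 := by rw [he2]; ring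
    have hprod : ((S : ℤ) : ℂ) * (z * w) = (A.c * B.c) / ((S : ℤ) : ℂ) +
        (A.c * e2 + e1 * B.c + e1 * e2) / ((S : ℤ) : ℂ) := by
      rw [← add_div, eq_div_iff SneC]
      calc ((S : ℤ) : ℂ) * (z * w) * ((S : ℤ) : ℂ)
          = (((S : ℤ) : ℂ) * z) * (((S : ℤ) : ℂ) * w) := by ring
        _ = (A.c + e1) * (B.c + e2) := by rw [hSz, hSw]
        _ = _ := by ring
    have hsplit : ((S : ℤ) : ℂ) * (z * w) - (A.mul B).c =
        ((A.c * B.c) / ((S : ℤ) : ℂ) - (A.mul B).c) +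
        (A.c * e2 + e1 * B.c + e1 * e2) / ((S : ℤ) : ℂ) := by rw [hprod]; ring
    rw [hsplit]
    have h1 : ‖(A.c * B.c) / ((S : ℤ) : ℂ) - (A.mul B).c‖ ≤ 2 := by
      refine (Complex.norm_le_abs_re_add_abs_im _).trans ?_
      have hre : ((A.c * B.c) / ((S : ℤ) : ℂ) - (A.mul B).c).re =
          ((A.re * B.re - A.im * B.im : ℤ) : ℝ) / ((S : ℤ) : ℝ) -
            (((A.re * B.re - A.im * B.im) / S : ℤ) : ℝ) := by
        have : ((S : ℤ) : ℂ) = (((S : ℤ) : ℝ) : ℂ) := by push_cast; rfl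
        rw [this, Complex.sub_re, Complex.div_ofReal_re]
        simp [CI.c, CI.mul]
      have him : ((A.c * B.c) / ((S : ℤ) : ℂ) - (A.mul B).c).im =
          ((A.re * B.im + A.im * B.re : ℤ) : ℝ) / ((S : ℤ) : ℝ) -
            (((A.re * B.im + A.im * B.re) / S : ℤ) : ℝ) := by
        have : ((S : ℤ) : ℂ) = (((S : ℤ) : ℝ) : ℂ) := by push_cast; rfl
        rw [this, Complex.sub_im, Complex.div_ofReal_im]
        simp [CI.c, CI.mul]
      rw [hre, him]
      have a1 := floor_le (A.re * B.re - A.im * B.im)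
      have a2 := lt_floor (A.re * B.re - A.im * B.im)
      have a3 := floor_le (A.re * B.im + A.im * B.re)
      have a4 := lt_floor (A.re * B.im + A.im * B.re)
      rw [abs_of_nonneg (by linarith), abs_of_nonneg (by linarith)]
      linarith
    have h2 : ‖(A.c * e2 + e1 * B.c + e1 * e2) / ((S : ℤ) : ℂ)‖ ≤
        ((n1 A.re A.im * B.r + n1 B.re B.im * A.r + A.r * B.r : ℤ) : ℝ) / ((S : ℤ) : ℝ) := by
      rw [norm_div]
      have hS : ‖((S : ℤ) : ℂ)‖ = ((S : ℤ) : ℝ) := by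
        have : ((S : ℤ) : ℂ) = (((S : ℤ) : ℝ) : ℂ) := by push_cast; rfl
        rw [this, Complex.norm_real, Real.norm_of_nonneg SposR.le]
      rw [hS]
      apply div_le_div_of_nonneg_right _ SposR.le
      push_cast
      have n1A := norm_c A
      have n1B := norm_c B
      calc ‖A.c * e2 + e1 * B.c + e1 * e2‖ ≤ ‖A.c * e2‖ + ‖e1 * B.c‖ + ‖e1 * e2‖ :=
            norm_add₃_le
        _ = ‖A.c‖ * ‖e2‖ + ‖e1‖ * ‖B.c‖ + ‖e1‖ * ‖e2‖ := by rw [norm_mul, norm_mul, norm_mul]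
        _ ≤ (n1 A.re A.im : ℤ) * (B.r : ℝ) + (A.r : ℝ) * (n1 B.re B.im : ℤ) +
            (A.r : ℝ) * (B.r : ℝ) := by
          have hnA : (0 : ℝ) ≤ ((n1 A.re A.im : ℤ) : ℝ) := (norm_nonneg _).trans n1A
          have hnB : (0 : ℝ) ≤ ((n1 B.re B.im : ℤ) : ℝ) := (norm_nonneg _).trans n1B
          gcongr
        _ = _ := by ring
    have h3 := lt_floor (n1 A.re A.im * B.r + n1 B.re B.im * A.r + A.r * B.r)
    have hr : (((A.mul B).r : ℤ) : ℝ) =
        (((n1 A.re A.im * B.r + n1 B.re B.im * A.r + A.r * B.r) / S : ℤ) : ℝ) + 3 := by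
      simp [CI.mul]
    rw [hr]
    refine (norm_add_le _ _).trans ?_
    linarith

end Pool.Agent.T2H75.CF
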