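import Pool.Agent.T2H75.CF.Stm

set_option autoImplicit false

namespace Pool.Agent.T2H75.CF

/-- FKP: Newton-Kantorovich with slopes. -/
theorem pFKP : S_FKP := by
  intro N F ε hε hsl h0
  set T : (Fin N → ℂ) → (Fin N → ℂ) := fun u i => u i - F i u with hT
  have hlip : ∀ x y : Fin N → ℂ, ‖x‖ ≤ ε → ‖y‖ ≤ ε → ‖T x - T y‖ ≤ 1 / 2 * ‖x - y‖ := by
    intro x y hx hy
    rw [pi_norm_le_iff_of_nonneg (by positivity)]
    intro i
    obtain ⟨a, ha, hF⟩ := hsl i x y hx hy
    have e1 : (T x - T y) i = ∑ l, ((if i = l then 1 else 0) - a l) * (x - y) l := by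
      simp only [hT, Pi.sub_apply, sub_mul, Finset.sum_sub_distrib]
      rw [← hF]
      simp only [ite_mul, one_mul, zero_mul, Finset.sum_ite_eq, Finset.mem_univ, if_true]
      ring
    rw [e1]
    calc ‖∑ l, ((if i = l then 1 else 0) - a l) * (x - y) l‖
        ≤ ∑ l, ‖((if i = l then 1 else 0) - a l) * (x - y) l‖ := norm_sum_le _ _
      _ ≤ ∑ l, ‖(if i = l then 1 else 0) - a l‖ * ‖x - y‖ := by
          refine Finset.sum_le_sum fun l _ => ?_
          rw [norm_mul]
          exact mul_le_mul_of_nonneg_left (norm_le_pi_norm (x - y) l) (norm_nonneg _)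
      _ = (∑ l, ‖(if i = l then 1 else 0) - a l‖) * ‖x - y‖ := by rw [Finset.sum_mul]
      _ ≤ 1 / 2 * ‖x - y‖ := mul_le_mul_of_nonneg_right ha (norm_nonneg _)
  have hT0 : ‖T 0‖ ≤ ε / 2 := by
    rw [pi_norm_le_iff_of_nonneg (by positivity)]
    intro i
    have : T 0 i = - F i 0 := by simp [hT]
    rw [this, norm_neg]
    exact h0 i
  have hmaps : Set.MapsTo T (Metric.closedBall 0 ε) (Metric.closedBall 0 ε) := by
    intro x hx
    rw [mem_closedBall_zero_iff] at hx ⊢
    have h2 := hlip x 0 hx (by simpa using hε.le)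
    have h3 : ‖T x‖ ≤ ‖T x - T 0‖ + ‖T 0‖ := by
      simpa using norm_add_le (T x - T 0) (T 0)
    rw [sub_zero] at h2
    linarith
  have hcontr : ContractingWith (1 / 2 : NNReal) (hmaps.restrict T _ _) := by
    refine ⟨by norm_num, LipschitzWith.of_dist_le_mul fun x y => ?_⟩
    have := hlip x.1 y.1 (mem_closedBall_zero_iff.mp x.2) (mem_closedBall_zero_iff.mp y.2)
    rw [Subtype.dist_eq, Subtype.dist_eq, dist_eq_norm, dist_eq_norm]
    simpa using this
  obtain ⟨y, hy, hfix, -⟩ := hcontr.exists_fixedPoint' Metric.isClosed_closedBall.isComplete hmaps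
    (x := 0) (by simpa using hε.le) (edist_ne_top _ _)
  refine ⟨y, by simpa using hy, fun i => ?_⟩
  have h1 : T y i = y i := congrFun hfix i
  simp only [hT] at h1
  exact sub_eq_self.mp h1

end Pool.Agent.T2H75.CF
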