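import Pool.Agent.T2H75.CF.Stm

set_option autoImplicit false

open Polynomial

namespace Pool.Agent.T2H75.CF

namespace PkgSLG

lemma dot_replicate_zero (n : ℕ) (l : List ℂ) : dot (List.replicate n (0 : ℂ)) l = 0 := by
  induction n generalizing l with
  | zero => cases l <;> rfl
  | succ n ih =>
    cases l with
    | nil => rfl
    | cons b l =>
      rw [List.replicate_succ]
      show 0 * b + dot (List.replicate n (0 : ℂ)) l = 0
      rw [ih l]; ring

/-- linear combination of two lists of the same length -/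
lemma dot_zipWith (p q : ℂ) : ∀ (as bs l : List ℂ), as.length = bs.length →
    dot (List.zipWith (fun a b => p * b + q * a) as bs) l = p * dot bs l + q * dot as l
  | [], [], l, _ => by cases l <;> simp [dot]
  | [], b :: bs, l, h => by simp at h
  | a :: as, [], l, h => by simp at h
  | a :: as, b :: bs, l, h => by
    cases l with
    | nil => simp [dot]
    | cons c l =>
      have ih := dot_zipWith p q as bs l (by simpa using h)
      show (p * b + q * a) * c + dot (List.zipWith (fun a b => p * b + q * a) as bs) l = _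
      rw [ih]
      show _ = p * (b * c + dot bs l) + q * (a * c + dot as l)
      ring

lemma dot_map (p : ℂ) : ∀ (as l : List ℂ), dot (as.map fun a => p * a) l = p * dot as l
  | [], l => by cases l <;> simp [dot]
  | a :: as, l => by
    cases l with
    | nil => simp [dot]
    | cons c l =>
      have ih := dot_map p as l
      show (p * a) * c + dot (as.map fun a => p * a) l = p * (a * c + dot as l)
      rw [ih]
      ring

lemma f2_zip {P : CI → ℂ → Prop} (F : CI → CI → CI) (G : ℂ → ℂ → ℂ)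
    (hFG : ∀ A B a b, P A a → P B b → P (F A B) (G a b)) :
    ∀ {X Y : List CI} {as bs : List ℂ}, List.Forall₂ P X as → List.Forall₂ P Y bs →
      List.Forall₂ P (List.zipWith F X Y) (List.zipWith G as bs) := by
  intro X Y as bs h1
  induction h1 generalizing Y bs with
  | nil => intro h2; simp
  | cons h h1 ih =>
    intro h2
    cases h2 with
    | nil => simp
    | cons h' h2 =>
      simp only [List.zipWith_cons_cons]
      exact List.Forall₂.cons (hFG _ _ _ _ h h') (ih h2)

lemma f2_map {P : CI → ℂ → Prop} (F : CI → CI) (G : ℂ → ℂ)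
    (hFG : ∀ A a, P A a → P (F A) (G a)) :
    ∀ {X : List CI} {as : List ℂ}, List.Forall₂ P X as →
      List.Forall₂ P (X.map F) (as.map G) := by
  intro X as h1
  induction h1 with
  | nil => simp
  | cons h h1 ih =>
    simp only [List.map_cons]
    exact List.Forall₂.cons (hFG _ _ h) ih

lemma mem_zero : CI.zero.mem 0 := by
  have hc : CI.zero.c = 0 := by apply Complex.ext <;> simp [CI.zero, CI.c]
  unfold CI.mem
  rw [hc, mul_zero, sub_zero, norm_zero]
  simp [CI.zero]

lemma mem_one : CI.one.mem 1 := by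
  have hc : CI.one.c = ((S : ℤ) : ℂ) := by apply Complex.ext <;> simp [CI.one, CI.c]
  unfold CI.mem
  rw [hc, mul_one, sub_self, norm_zero]
  simp [CI.one]

lemma f2_replicate (n : ℕ) :
    List.Forall₂ CI.mem (List.replicate n CI.zero) (List.replicate n (0 : ℂ)) := by
  induction n with
  | zero => simp
  | succ n ih =>
    rw [List.replicate_succ, List.replicate_succ]
    exact List.Forall₂.cons mem_zero ih

end PkgSLG

open PkgSLG in
theorem pSLG (hM : S_CIM) (hI : S_CII) : S_SLG := by
  obtain ⟨hadd, hsub, hneg, hsmul, hmul⟩ := hM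
  obtain ⟨hne, hinv⟩ := hI
  intro α B L n
  refine ⟨?_, ?_, ?_, ?_, ?_⟩
  · refine ⟨by simp [SL.one], fun _ => ⟨fun u _ => mem_one, ?_⟩⟩
    intro u _ v _
    refine ⟨List.replicate n 0, f2_replicate n, ?_⟩
    rw [dot_replicate_zero, sub_self]
  · intro X Y f g hX hY
    refine ⟨by simp [SL.sub, hX.1, hY.1], ?_⟩
    intro hok
    have hok' : (X.ok && Y.ok) = true := hok
    rw [Bool.and_eq_true] at hok'
    obtain ⟨vX, sX⟩ := hX.2 hok'.1
    obtain ⟨vY, sY⟩ := hY.2 hok'.2
    refine ⟨fun u hu => hsub _ _ _ _ (vX u hu) (vY u hu), ?_⟩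
    intro u hu v hv
    obtain ⟨as, ha, ea⟩ := sX u hu v hv
    obtain ⟨bs, hb, eb⟩ := sY u hu v hv
    have hlen : as.length = bs.length := by
      rw [← ha.length_eq, ← hb.length_eq, hX.1, hY.1]
    refine ⟨List.zipWith (fun a b => (-1) * b + 1 * a) as bs, ?_, ?_⟩
    · refine f2_zip CI.sub _ ?_ ha hb
      intro A B a b h1 h2
      have := hsub A B a b h1 h2
      have e : (-1 : ℂ) * b + 1 * a = a - b := by ring
      rw [e]; exact this
    · rw [dot_zipWith (-1) 1 as bs _ hlen, ← ea, ← eb]
      ring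
  · intro k X f hX
    refine ⟨by simp [SL.smul, hX.1], ?_⟩
    intro hok
    obtain ⟨vX, sX⟩ := hX.2 hok
    refine ⟨fun u hu => hsmul _ _ _ (vX u hu), ?_⟩
    intro u hu v hv
    obtain ⟨as, ha, ea⟩ := sX u hu v hv
    refine ⟨as.map fun a => (k : ℂ) * a, f2_map (CI.smul k) _ (fun A a h => hsmul k A a h) ha, ?_⟩
    rw [dot_map, ← ea]
    ring
  · intro X Y f g hX hY
    refine ⟨by simp [SL.mul, hX.1, hY.1], ?_⟩
    intro hok
    have hok' : (X.ok && Y.ok) = true := hok
    rw [Bool.and_eq_true] at hok'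
    obtain ⟨vX, sX⟩ := hX.2 hok'.1
    obtain ⟨vY, sY⟩ := hY.2 hok'.2
    refine ⟨fun u hu => hmul _ _ _ _ (vX u hu) (vY u hu), ?_⟩
    intro u hu v hv
    obtain ⟨as, ha, ea⟩ := sX u hu v hv
    obtain ⟨bs, hb, eb⟩ := sY u hu v hv
    have hlen : as.length = bs.length := by
      rw [← ha.length_eq, ← hb.length_eq, hX.1, hY.1]
    refine ⟨List.zipWith (fun a b => f u * b + g v * a) as bs, ?_, ?_⟩
    · refine f2_zip _ _ ?_ ha hb
      intro A B a b h1 h2
      have := hadd _ _ _ _ (hmul _ _ _ _ (vX u hu) h2) (hmul _ _ _ _ h1 (vY v hv))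
      have e : f u * b + g v * a = f u * b + a * g v := by ring
      rw [e]; exact this
    · show f u * g u - f v * g v = _
      rw [dot_zipWith (f u) (g v) as bs _ hlen, ← ea, ← eb]
      ring
  · intro X f hX
    refine ⟨by simp [SL.inv, hX.1], ?_⟩
    intro hok
    have hok' : (X.ok && decide (0 < X.v.lo)) = true := hok
    rw [Bool.and_eq_true] at hok'
    have hlo : 0 < X.v.lo := of_decide_eq_true hok'.2
    obtain ⟨vX, sX⟩ := hX.2 hok'.1
    have vi : ∀ u ∈ B, X.v.inv.mem (f u)⁻¹ := fun u hu => hinv _ _ _ _ (vX u hu) hlo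
    refine ⟨vi, ?_⟩
    intro u hu v hv
    obtain ⟨as, ha, ea⟩ := sX u hu v hv
    refine ⟨as.map fun a => (-((f u)⁻¹ * (f v)⁻¹)) * a, ?_, ?_⟩
    · refine f2_map (fun a => ((a.mul X.v.inv).mul X.v.inv).neg) _ ?_ ha
      intro A a h
      have := hneg _ _ (hmul _ _ _ _ (hmul _ _ _ _ h (vi u hu)) (vi v hv))
      have e : (-((f u)⁻¹ * (f v)⁻¹)) * a = -(a * (f u)⁻¹ * (f v)⁻¹) := by ring
      show CI.mem _ ((-((f u)⁻¹ * (f v)⁻¹)) * a)
      rw [e]; exact this
    · show (f u)⁻¹ - (f v)⁻¹ = _
      rw [dot_map, ← ea]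
      have hu0 := hne _ _ (vX u hu) hlo
      have hv0 := hne _ _ (vX v hv) hlo
      field_simp
      ring

end Pool.Agent.T2H75.CF
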