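import Pool.Agent.T2H75.CF.Data

/-!
Project CF (MP_11e9c7_an, helper75): the checks, evaluated by the kernel.
-/

set_option autoImplicit false

namespace Pool.Agent.T2H75.CF

/-- The radius (scaled by `2 ^ 80`) of the ball in the `u`-space: `2 ^ (-40)`. -/
def eps : ℤ := 1099511627776
/-- The scale of the entries of `Y0` relative to `S`. -/
def sc : ℤ := 17179869184

/-- sum of the (scaled) norms of a row -/
def rowN : List (ℤ × ℤ) → ℤ
  | [] => 0
  | y :: t => n1 (y.1 * sc) (y.2 * sc) + rowN t

/-- the variable `x + ∑ y_l u_l` for `|u_l| ≤ eps / S` -/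
def mkX (x : ℤ × ℤ) (row : List (ℤ × ℤ)) : SL :=
  ⟨true, ⟨x.1, x.2, rowN row * eps / S + 1⟩, row.map fun y => ⟨y.1 * sc, y.2 * sc, 0⟩⟩
/-- the constant `x` without slopes -/
def mkX0 (x : ℤ × ℤ) : SL := ⟨true, ⟨x.1, x.2, 0⟩, []⟩

def XS : List SL := List.zipWith mkX X0 Y0
def BS : List SL := XS.take 8
def ZS : List SL := XS.drop 8
def XP : List SL := X0.map mkX0
def BP : List SL := XP.take 8
def ZP : List SL := XP.drop 8

/-- the slopes of the `i`-th first equation -/
def chkH : ℕ → List SL → Bool
  | _, [] => true
  | i, z :: t => (SL.H 16 10 z BS).ok && decide (2 * rowsum i (SL.H 16 10 z BS).s ≤ S) &&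
      chkH (i + 1) t
/-- the slopes of the `i`-th second equation -/
def chkE : ℕ → List SL → Bool
  | _, [] => true
  | i, z :: t => (SL.E 16 1025 z BS).ok && decide (2 * rowsum i (SL.E 16 1025 z BS).s ≤ S) &&
      chkE (i + 1) t
/-- the value of a term is small -/
def small (h : SL) : Bool := h.ok && decide (2 * (n1 h.v.re h.v.im + h.v.r) ≤ eps)
/-- the values of the first equations at the centre -/
def chkH0 : List SL → Bool
  | [] => true
  | z :: t => small (SL.H 0 10 z BP) && chkH0 t
/-- the values of the second equations at the centre -/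
def chkE0 : List SL → Bool
  | [] => true
  | z :: t => small (SL.E 0 1025 z BP) && chkE0 t

theorem hH : chkH 0 ZS = true := by decide +kernel
theorem hE : chkE 8 ZS = true := by decide +kernel
theorem hH0 : chkH0 ZP = true := by decide +kernel
theorem hE0 : chkE0 ZP = true := by decide +kernel
theorem hlen : X0.length = 16 ∧ Y0.length = 16 ∧ ∀ row ∈ Y0, row.length = 16 := by decide +kernel

/-- `z ≠ 0` on the disc -/
def nz (A : CI) : Bool := decide (0 < A.lo)
def bv : List CI := BS.map SL.v
def zv : List CI := ZS.map SL.v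

/-- all the non-vanishing conditions -/
def chkN : Bool :=
  bv.all nz && bv.all (fun b => bv.all fun b' => nz (CI.one.sub (b.mul b'))) &&
  bv.all (fun b => nz (CI.one.sub b)) && zv.all nz &&
  zv.all (fun z => bv.all fun b => nz (CI.one.sub (b.mul z))) &&
  zv.all (fun z => bv.all fun b => nz (z.sub b)) &&
  zv.all (fun z => zv.all fun z' => nz (CI.one.sub (z.mul z')))

/-- pairwise differences -/
def chkD : List CI → Bool
  | [] => true
  | z :: t => t.all (fun z' => nz (z.sub z')) && chkD t

theorem hN : chkN = true := by decide +kernel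
theorem hD : chkD zv = true := by decide +kernel

/-- `(1 + b) / (1 - b)` -/
def cay (b : CI) : CI := (CI.one.add b).mul (CI.one.sub b).inv

/-- `1024 - ∑ (1 + b) / (1 - b)`, the multiplier minus one -/
def muv : List CI → CI
  | [] => CI.one.smul 1024
  | b :: t => (muv t).sub (cay b)

def chkM (M : CI) : Bool :=
  decide (0 < M.re - M.r) && decide (M.im + M.r < 0) &&
  decide (1032 * S * (M.re + M.r) < (M.re - M.r) ^ 2 + (M.im + M.r) ^ 2)

theorem hM : chkM (muv bv) = true := by decide +kernel

end Pool.Agent.T2H75.CF
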