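import Mathlib

/-!
Project CF (MP_11e9c7_an, helper75): disproof of the conjecture on the fixed point multipliers of
critically fixed rational maps.  Definitions: disc arithmetic with integer data (`CI`), disc
arithmetic with slopes (`SL`), and the notions of the final statement.
-/

set_option autoImplicit false

open Polynomial

namespace Pool.Agent.T2H75.CF

/-- The scale `2 ^ 80`. -/
def S : ℤ := 1208925819614629174706176

/-- A closed disc: centre `(re + im i) / S`, radius `r / S`. -/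
structure CI where
  re : ℤ
  im : ℤ
  r : ℤ

/-- An upper bound of `|a + b i|`. -/
def n1 (a b : ℤ) : ℤ := |a| + |b|

/-- The (scaled) centre. -/
noncomputable def CI.c (A : CI) : ℂ := ⟨(A.re : ℝ), (A.im : ℝ)⟩

/-- `z` lies in the disc `A`. -/
def CI.mem (A : CI) (z : ℂ) : Prop := ‖((S : ℤ) : ℂ) * z - A.c‖ ≤ (A.r : ℝ)

def CI.zero : CI := ⟨0, 0, 0⟩
def CI.one : CI := ⟨S, 0, 0⟩
def CI.add (A B : CI) : CI := ⟨A.re + B.re, A.im + B.im, A.r + B.r⟩
def CI.sub (A B : CI) : CI := ⟨A.re - B.re, A.im - B.im, A.r + B.r⟩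
def CI.neg (A : CI) : CI := ⟨-A.re, -A.im, A.r⟩
def CI.smul (k : ℕ) (A : CI) : CI := ⟨k * A.re, k * A.im, k * A.r⟩
def CI.mul (A B : CI) : CI :=
  ⟨(A.re * B.re - A.im * B.im) / S, (A.re * B.im + A.im * B.re) / S,
    (n1 A.re A.im * B.r + n1 B.re B.im * A.r + A.r * B.r) / S + 3⟩
/-- A lower bound of `|z|` for `z` in the disc. -/
def CI.lo (A : CI) : ℤ := max |A.re| |A.im| - A.r
/-- The disc of the inverses, with given (approximate) centre `(x + y i) / S`. -/
def CI.invc (A : CI) (x y : ℤ) : CI :=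
  ⟨x, y, (n1 (S * S - (A.re * x - A.im * y)) (A.re * y + A.im * x) + n1 x y * A.r) / A.lo + 1⟩
/-- The disc of the inverses. -/
def CI.inv (A : CI) : CI :=
  A.invc (S * S * A.re / (A.re * A.re + A.im * A.im))
    (-(S * S * A.im / (A.re * A.re + A.im * A.im)))

/-- A value disc with a list of slope discs; `ok` says that all inversions were legitimate. -/
structure SL where
  ok : Bool
  v : CI
  s : List CI

def SL.one (n : ℕ) : SL := ⟨true, CI.one, List.replicate n CI.zero⟩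
def SL.add (X Y : SL) : SL := ⟨X.ok && Y.ok, X.v.add Y.v, List.zipWith CI.add X.s Y.s⟩
def SL.sub (X Y : SL) : SL := ⟨X.ok && Y.ok, X.v.sub Y.v, List.zipWith CI.sub X.s Y.s⟩
def SL.smul (k : ℕ) (X : SL) : SL := ⟨X.ok, X.v.smul k, X.s.map (CI.smul k)⟩
def SL.mul (X Y : SL) : SL :=
  ⟨X.ok && Y.ok, X.v.mul Y.v,
    List.zipWith (fun a b => (X.v.mul b).add (a.mul Y.v)) X.s Y.s⟩
def SL.inv (X : SL) : SL :=
  ⟨X.ok && decide (0 < X.v.lo), X.v.inv, X.s.map fun a => ((a.mul X.v.inv).mul X.v.inv).neg⟩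

/-- `X ^ (2 ^ n)` by squaring. -/
def SL.sqn (X : SL) : ℕ → SL
  | 0 => X
  | n + 1 => (X.sqn n).mul (X.sqn n)

/-- `q(z,b) = (1 - b z) / (z - b)` -/
def SL.q (n : ℕ) (z b : SL) : SL := ((SL.one n).sub (b.mul z)).mul (z.sub b).inv
/-- `1 / q(z,b)` -/
def SL.q' (n : ℕ) (z b : SL) : SL := (z.sub b).mul ((SL.one n).sub (b.mul z)).inv

/-- `z ^ (2 ^ e) * ∏ q(z,b) - 1` -/
def SL.H (n e : ℕ) (z : SL) (bs : List SL) : SL :=
  (bs.foldl (fun X b => X.mul (SL.q n z b)) (z.sqn e)).sub (SL.one n)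

/-- `k (1/z - z) - ∑ (q(z,b) - 1/q(z,b))` -/
def SL.E (n k : ℕ) (z : SL) (bs : List SL) : SL :=
  bs.foldl (fun X b => X.sub ((SL.q n z b).sub (SL.q' n z b))) ((z.inv.sub z).smul k)

/-- `∑_l |δ_il - a_l|` for the slopes, scaled -/
def rowsum : ℕ → List CI → ℤ
  | _, [] => 0
  | 0, A :: s => n1 (S - A.re) A.im + A.r + rowsumz s
  | i + 1, A :: s => n1 A.re A.im + A.r + rowsum i s
where rowsumz : List CI → ℤ
  | [] => 0
  | A :: s => n1 A.re A.im + A.r + rowsumz s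

end Pool.Agent.T2H75.CF
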