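import Pool.Agent.T2H75.CF.Sol

/-!
Project CF (MP_11e9c7_an, helper75): the counterexample, from the soundness statements.
-/

set_option autoImplicit false

open Polynomial

namespace Pool.Agent.T2H75.CF

theorem forall₂_all {p : CI → Bool} {Q : ℂ → Prop} {l : List CI} {xs : List ℂ}
    (h : List.Forall₂ CI.mem l xs) (hp : l.all p = true)
    (hQ : ∀ A x, A.mem x → p A = true → Q x) : ∀ x ∈ xs, Q x := by
  induction h with
  | nil => intro x hx; simp at hx
  | cons h1 _ ih =>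
    simp only [List.all_cons, Bool.and_eq_true] at hp
    intro x hx
    rcases List.mem_cons.1 hx with rfl | hx
    · exact hQ _ _ h1 hp.1
    · exact ih hp.2 x hx

theorem one_mem : CI.one.mem 1 := by
  unfold CI.mem CI.c CI.one
  simp only
  have : ((S : ℤ) : ℂ) * 1 - ⟨((S : ℤ) : ℝ), ((0 : ℤ) : ℝ)⟩ = 0 := by
    apply Complex.ext <;> simp
  rw [this, norm_zero]
  simp

theorem XS_mem {u : Fin 16 → ℂ} (hu : ‖u‖ ≤ epsR) :
    List.Forall₂ (fun (X : SL) (f : (Fin 16 → ℂ) → ℂ) => X.v.mem (f u)) XS FS :=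
  forall₂_zip _ _ _ _ _ fun x y hy => ((good_mkX x y (hlen.2.2 y hy)).2 rfl).1 u hu

theorem bv_mem {u : Fin 16 → ℂ} (hu : ‖u‖ ≤ epsR) :
    List.Forall₂ CI.mem bv (FB.map fun g => g u) := by
  unfold bv
  rw [List.forall₂_map_left_iff, List.forall₂_map_right_iff]
  exact List.forall₂_take 8 (XS_mem hu)

theorem zv_mem {u : Fin 16 → ℂ} (hu : ‖u‖ ≤ epsR) :
    List.Forall₂ CI.mem zv (FZ.map fun g => g u) := by
  unfold zv
  rw [List.forall₂_map_left_iff, List.forall₂_map_right_iff]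
  exact List.forall₂_drop 8 (XS_mem hu)

theorem chkD_of (hC : S_CIM) (hI : S_CII) {l : List CI} {xs : List ℂ}
    (h : List.Forall₂ CI.mem l xs) (hp : chkD l = true) :
    xs.Pairwise fun a b => a - b ≠ 0 := by
  induction h with
  | nil => exact List.Pairwise.nil
  | cons h1 h2 ih =>
    simp only [chkD, Bool.and_eq_true] at hp
    refine List.Pairwise.cons ?_ (ih hp.2)
    refine forall₂_all h2 hp.1 fun A x hA hn => ?_
    unfold nz at hn
    rw [decide_eq_true_eq] at hn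
    exact hI.1 _ _ (hC.2.1 _ _ _ _ h1 hA) hn

/-- `1024 - ∑ (1 + b)/(1 - b)` -/
noncomputable def cmu : List ℂ → ℂ
  | [] => 1024
  | b :: t => cmu t - (1 + b) / (1 - b)

theorem muv_mem (hC : S_CIM) (hI : S_CII) {l : List CI} {xs : List ℂ}
    (h : List.Forall₂ CI.mem l xs) (hp : l.all (fun b => nz (CI.one.sub b)) = true) :
    (muv l).mem (cmu xs) := by
  induction h with
  | nil =>
    have := hC.2.2.2.1 1024 _ _ one_mem
    simpa [muv, cmu] using this
  | cons h1 h2 ih =>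
    simp only [List.all_cons, Bool.and_eq_true] at hp
    have h3 := hp.1
    unfold nz at h3
    rw [decide_eq_true_eq] at h3
    simp only [muv, cmu]
    refine hC.2.1 _ _ _ _ (ih hp.2) ?_
    unfold cay
    rw [div_eq_mul_inv]
    exact hC.2.2.2.2 _ _ _ _ (hC.1 _ _ _ _ one_mem h1)
      (hI.2 _ _ _ _ (hC.2.1 _ _ _ _ one_mem h1) h3)

theorem foldl_mul (z : ℂ) : ∀ (bs : List ℂ) (x : ℂ),
    bs.foldl (fun X b => X * cq z b) x = x * (bs.map (cq z)).prod
  | [], x => by simp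
  | b :: bs, x => by
    simp only [List.foldl_cons, List.map_cons, List.prod_cons]
    rw [foldl_mul]
    ring

theorem foldl_sub (z : ℂ) : ∀ (bs : List ℂ) (x : ℂ),
    bs.foldl (fun X b => X - (cq z b - cq' z b)) x
      = x - (bs.map fun b => cq z b - cq' z b).sum
  | [], x => by simp
  | b :: bs, x => by
    simp only [List.foldl_cons, List.map_cons, List.sum_cons]
    rw [foldl_sub]
    ring

theorem cmu_eq : ∀ bs : List ℂ, cmu bs = 1024 - (bs.map fun b => (1 + b) / (1 - b)).sum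
  | [] => by simp [cmu]
  | b :: bs => by
    simp only [cmu, List.map_cons, List.sum_cons]
    rw [cmu_eq bs]
    ring

/-- the multiplier is outside of the disc -/
theorem chkM_of {M : CI} {w : ℂ} (h : M.mem w) (hc : chkM M = true) :
    0 < w.re ∧ 1032 * w.re < w.re ^ 2 + w.im ^ 2 := by
  unfold chkM at hc
  simp only [Bool.and_eq_true, decide_eq_true_eq] at hc
  obtain ⟨⟨h1, h2⟩, h3⟩ := hc
  have hS := S_pos
  unfold CI.mem at h
  have hre := (Complex.abs_re_le_norm _).trans h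
  have him := (Complex.abs_im_le_norm _).trans h
  have e1 : (((S : ℤ) : ℂ) * w - M.c).re = ((S : ℤ) : ℝ) * w.re - (M.re : ℝ) := by
    simp [CI.c]
  have e2 : (((S : ℤ) : ℂ) * w - M.c).im = ((S : ℤ) : ℝ) * w.im - (M.im : ℝ) := by
    simp [CI.c]
  rw [e1, abs_le] at hre
  rw [e2, abs_le] at him
  have h1' : (0 : ℝ) < (M.re : ℝ) - M.r := by exact_mod_cast h1
  have h2' : (M.im : ℝ) + M.r < 0 := by exact_mod_cast h2
  have h3' : 1032 * ((S : ℤ) : ℝ) * ((M.re : ℝ) + M.r)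
      < ((M.re : ℝ) - M.r) ^ 2 + ((M.im : ℝ) + M.r) ^ 2 := by exact_mod_cast h3
  set s : ℝ := ((S : ℤ) : ℝ) with hs
  have hr : 0 < s * w.re := by linarith
  have hr' : 0 < w.re := by
    rcases (mul_pos_iff.1 hr) with h | h
    · exact h.2
    · linarith [h.1]
  refine ⟨hr', ?_⟩
  have a1 : ((M.re : ℝ) - M.r) ^ 2 ≤ (s * w.re) ^ 2 := by
    apply pow_le_pow_left₀ h1'.le
    linarith
  have a2 : ((M.im : ℝ) + M.r) ^ 2 ≤ (s * w.im) ^ 2 := by
    rw [← neg_sq, ← neg_sq (s * w.im)]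
    apply pow_le_pow_left₀ (by linarith)
    linarith
  have a3 : 1032 * s * (s * w.re) < (s * w.re) ^ 2 + (s * w.im) ^ 2 := by
    have : 1032 * s * (s * w.re) ≤ 1032 * s * ((M.re : ℝ) + M.r) :=
      mul_le_mul_of_nonneg_left (by linarith) (by positivity)
    linarith
  have a4 : s ^ 2 * (1032 * w.re) < s ^ 2 * (w.re ^ 2 + w.im ^ 2) := by
    calc s ^ 2 * (1032 * w.re) = 1032 * s * (s * w.re) := by ring
      _ < (s * w.re) ^ 2 + (s * w.im) ^ 2 := a3
      _ = _ := by ring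
  exact lt_of_mul_lt_mul_left a4 (by positivity)

/-- **The counterexample.** -/
theorem counterexample (hC : S_CIM) (hI : S_CII) (hS : S_SLG) (hF : S_FKP) (hA : S_ALG2) :
    ∃ P Q : ℂ[X], IsCritFixed P Q 1033 ∧ Q.natDegree = 8 ∧ P.eval 1 = Q.eval 1 ∧ Q.eval 1 ≠ 0 ∧
      ∃ w : ℂ, (wr P Q).eval 1 / (Q.eval 1) ^ 2 = 1 + w ∧ 0 < w.re ∧
        1032 * w.re < w.re ^ 2 + w.im ^ 2 := by
  obtain ⟨u, hu, hz⟩ := exists_sol hS hF
  have mb := bv_mem hu
  have mz := zv_mem hu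
  set cb : List ℂ := FB.map fun g => g u with hcb
  set cz : List ℂ := FZ.map fun g => g u with hcz
  have lb : cb.length = 8 := by rw [hcb, List.length_map, FB_length]
  have lz : cz.length = 8 := by rw [hcz, List.length_map, FZ_length]
  set b : Fin 8 → ℂ := fun j => cb[(j : ℕ)]'(by omega) with hb
  set z : Fin 8 → ℂ := fun j => cz[(j : ℕ)]'(by omega) with hzz
  have ob : List.ofFn b = cb := by
    apply List.ext_getElem
    · simp [lb]
    · intro j h1 h2
      rw [List.getElem_ofFn]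
  have bm : ∀ j, b j ∈ cb := fun j => List.getElem_mem _
  have zm : ∀ j, z j ∈ cz := fun j => List.getElem_mem _
  have hN' := hN
  unfold chkN at hN'
  simp only [Bool.and_eq_true] at hN'
  obtain ⟨⟨⟨⟨⟨⟨c1, c2⟩, c3⟩, c4⟩, c5⟩, c6⟩, c7⟩ := hN'
  have nzf : ∀ (A : CI) (x : ℂ), A.mem x → nz A = true → x ≠ 0 := by
    intro A x h h'
    unfold nz at h'
    rw [decide_eq_true_eq] at h'
    exact hI.1 _ _ h h'
  have n1 : ∀ j, b j ≠ 0 := fun j => forall₂_all mb c1 nzf _ (bm j)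
  have n2 : ∀ i j, 1 - b i * b j ≠ 0 := fun i j =>
    forall₂_all (Q := fun x => ∀ y ∈ cb, 1 - x * y ≠ 0) mb c2 (fun A x hA h => forall₂_all mb h
      fun B y hB h' => nzf _ _ (hC.2.1 _ _ _ _ one_mem (hC.2.2.2.2 _ _ _ _ hA hB)) h')
      _ (bm i) _ (bm j)
  have n3 : ∀ j, 1 - b j ≠ 0 := fun j => forall₂_all (Q := fun x => 1 - x ≠ 0) mb c3
    (fun A x hA h => nzf _ _ (hC.2.1 _ _ _ _ one_mem hA) h) _ (bm j)
  have n4 : ∀ j, z j ≠ 0 := fun j => forall₂_all mz c4 nzf _ (zm j)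
  have n5 : ∀ i j, 1 - b j * z i ≠ 0 := fun i j =>
    forall₂_all (Q := fun x => ∀ y ∈ cb, 1 - y * x ≠ 0) mz c5 (fun A x hA h => forall₂_all mb h
      fun B y hB h' => nzf _ _ (hC.2.1 _ _ _ _ one_mem (hC.2.2.2.2 _ _ _ _ hB hA)) h')
      _ (zm i) _ (bm j)
  have n6 : ∀ i j, z i - b j ≠ 0 := fun i j =>
    forall₂_all (Q := fun x => ∀ y ∈ cb, x - y ≠ 0) mz c6 (fun A x hA h => forall₂_all mb h
      fun B y hB h' => nzf _ _ (hC.2.1 _ _ _ _ hA hB) h')
      _ (zm i) _ (bm j)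
  have n7 : ∀ i j, 1 - z i * z j ≠ 0 := fun i j =>
    forall₂_all (Q := fun x => ∀ y ∈ cz, 1 - x * y ≠ 0) mz c7 (fun A x hA h => forall₂_all mz h
      fun B y hB h' => nzf _ _ (hC.2.1 _ _ _ _ one_mem (hC.2.2.2.2 _ _ _ _ hA hB)) h')
      _ (zm i) _ (zm j)
  have n8 : ∀ i j, i ≠ j → z i - z j ≠ 0 := by
    have hp := chkD_of hC hI mz hD
    rw [List.pairwise_iff_getElem] at hp
    intro i j hij
    rcases lt_or_gt_of_ne (Fin.val_ne_of_ne hij) with h | h
    · exact hp i j (by omega) (by omega) h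
    · have := hp j i (by omega) (by omega) h
      intro h0
      apply this
      change z j - z i = 0
      rw [← neg_sub, h0, neg_zero]
  have hzm : ∀ i, cH 10 (z i) cb = 0 ∧ cE 1025 (z i) cb = 0 := by
    intro i
    obtain ⟨g, hg, he⟩ := List.mem_map.1 (zm i)
    rw [← he]
    exact hz g hg
  have e1 : ∀ i, z i ^ (1025 - 1) * ∏ j, ((1 - b j * z i) * (z i - b j)⁻¹) = 1 := by
    intro i
    have := (hzm i).1
    unfold cH at this
    rw [foldl_mul, sub_eq_zero, ← ob, List.map_ofFn, List.prod_ofFn] at this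
    rw [show (1025 - 1 : ℕ) = 2 ^ 10 by norm_num]
    exact this
  have e2 : ∀ i, ((1025 : ℕ) : ℂ) * ((z i)⁻¹ - z i)
      = ∑ j, ((1 - b j * z i) * (z i - b j)⁻¹ - (z i - b j) * (1 - b j * z i)⁻¹) := by
    intro i
    have := (hzm i).2
    unfold cE at this
    rw [foldl_sub, sub_eq_zero, ← ob, List.map_ofFn, List.sum_ofFn] at this
    exact this
  obtain ⟨r1, r2, r3, r4⟩ := hA 8 1025 b z (by norm_num) n1 n2 n3 n4 n5 n6 n8 n7 e1 e2
  refine ⟨_, _, r1, ?_, r2, r3, cmu cb, ?_, chkM_of (muv_mem hC hI mb c3) hM⟩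
  · unfold Qp
    rw [natDegree_finsetProd_X_sub_C_eq_card]
    simp
  rw [r4, cmu_eq, ← ob, List.map_ofFn, List.sum_ofFn]
  simp only [Function.comp_def]
  push_cast
  ring

end Pool.Agent.T2H75.CF
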