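import Pool.Agent.T2H75.CF.Stm
import Pool.Agent.T2H75.CF.Cert

/-!
Project CF (MP_11e9c7_an, helper75): soundness of the programs `SL.H`, `SL.E`.
-/

set_option autoImplicit false

open Polynomial

namespace Pool.Agent.T2H75.CF

/-- `q(z,b)` -/
noncomputable def cq (z b : ℂ) : ℂ := (1 - b * z) * (z - b)⁻¹
/-- `1/q(z,b)` -/
noncomputable def cq' (z b : ℂ) : ℂ := (z - b) * (1 - b * z)⁻¹
/-- first equation -/
noncomputable def cH (e : ℕ) (z : ℂ) (bs : List ℂ) : ℂ :=
  bs.foldl (fun X b => X * cq z b) (z ^ (2 ^ e)) - 1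
/-- second equation -/
noncomputable def cE (k : ℕ) (z : ℂ) (bs : List ℂ) : ℂ :=
  bs.foldl (fun X b => X - (cq z b - cq' z b)) ((k : ℂ) * (z⁻¹ - z))

section
variable {α : Type} {B : Set α} {L : α → α → List ℂ} {n : ℕ}

theorem good_sqn (hS : S_SLG) (e : ℕ) {X : SL} {f : α → ℂ} (h : Good B L n X f) :
    Good B L n (X.sqn e) (fun u => f u ^ (2 ^ e)) := by
  induction e with
  | zero => simpa [SL.sqn] using h
  | succ e ih =>
    have := (hS α B L n).2.2.2.1 _ _ _ _ ih ih
    simp only [SL.sqn]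
    have e1 : (fun u => f u ^ (2 ^ (e + 1))) = fun u => f u ^ (2 ^ e) * f u ^ (2 ^ e) := by
      funext u
      rw [← pow_add]
      congr 1
      rw [pow_succ]; ring
    rw [e1]
    exact this

theorem good_q (hS : S_SLG) {Z Bb : SL} {f g : α → ℂ} (hf : Good B L n Z f)
    (hg : Good B L n Bb g) : Good B L n (SL.q n Z Bb) (fun u => cq (f u) (g u)) := by
  obtain ⟨h1, h2, -, h4, h5⟩ := hS α B L n
  exact h4 _ _ _ _ (h2 _ _ _ _ h1 (h4 _ _ _ _ hg hf)) (h5 _ _ (h2 _ _ _ _ hf hg))

theorem good_q' (hS : S_SLG) {Z Bb : SL} {f g : α → ℂ} (hf : Good B L n Z f)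
    (hg : Good B L n Bb g) : Good B L n (SL.q' n Z Bb) (fun u => cq' (f u) (g u)) := by
  obtain ⟨h1, h2, -, h4, h5⟩ := hS α B L n
  exact h4 _ _ _ _ (h2 _ _ _ _ hf hg) (h5 _ _ (h2 _ _ _ _ h1 (h4 _ _ _ _ hg hf)))

theorem good_H (hS : S_SLG) (e : ℕ) {Z : SL} {f : α → ℂ} (hf : Good B L n Z f) {bs : List SL}
    {gs : List (α → ℂ)} (h : List.Forall₂ (Good B L n) bs gs) :
    Good B L n (SL.H n e Z bs) (fun u => cH e (f u) (gs.map fun g => g u)) := by
  have key : ∀ (bs : List SL) (gs : List (α → ℂ)), List.Forall₂ (Good B L n) bs gs →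
      ∀ (X : SL) (x : α → ℂ), Good B L n X x →
      Good B L n (bs.foldl (fun X b => X.mul (SL.q n Z b)) X)
        (fun u => (gs.map fun g => g u).foldl (fun X b => X * cq (f u) b) (x u)) := by
    intro bs gs h
    induction h with
    | nil => intro X x hx; simpa using hx
    | cons h1 _ ih =>
      intro X x hx
      simp only [List.foldl_cons, List.map_cons]
      exact ih _ _ ((hS α B L n).2.2.2.1 _ _ _ _ hx (good_q hS hf h1))
  exact (hS α B L n).2.1 _ _ _ _ (key bs gs h _ _ (good_sqn hS e hf)) (hS α B L n).1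

theorem good_E (hS : S_SLG) (k : ℕ) {Z : SL} {f : α → ℂ} (hf : Good B L n Z f) {bs : List SL}
    {gs : List (α → ℂ)} (h : List.Forall₂ (Good B L n) bs gs) :
    Good B L n (SL.E n k Z bs) (fun u => cE k (f u) (gs.map fun g => g u)) := by
  have key : ∀ (bs : List SL) (gs : List (α → ℂ)), List.Forall₂ (Good B L n) bs gs →
      ∀ (X : SL) (x : α → ℂ), Good B L n X x →
      Good B L n (bs.foldl (fun X b => X.sub ((SL.q n Z b).sub (SL.q' n Z b))) X)
        (fun u => (gs.map fun g => g u).foldl (fun X b => X - (cq (f u) b - cq' (f u) b)) (x u)) := by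
    intro bs gs h
    induction h with
    | nil => intro X x hx; simpa using hx
    | cons h1 _ ih =>
      intro X x hx
      simp only [List.foldl_cons, List.map_cons]
      exact ih _ _ ((hS α B L n).2.1 _ _ _ _ hx
        ((hS α B L n).2.1 _ _ _ _ (good_q hS hf h1) (good_q' hS hf h1)))
  exact key bs gs h _ _ ((hS α B L n).2.2.1 _ _ _
    ((hS α B L n).2.1 _ _ _ _ ((hS α B L n).2.2.2.2 _ _ hf) hf))

end

/-- a scaled pair as a complex number -/
noncomputable def toC (x : ℤ × ℤ) : ℂ := (⟨(x.1 : ℝ), (x.2 : ℝ)⟩ : ℂ) / ((S : ℤ) : ℂ)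

/-- the row of coefficients as complex numbers -/
noncomputable def rowC (row : List (ℤ × ℤ)) : List ℂ := row.map fun y => toC (y.1 * sc, y.2 * sc)

/-- the variable as a function of `u` -/
noncomputable def xval (x : ℤ × ℤ) (row : List (ℤ × ℤ)) (us : List ℂ) : ℂ :=
  toC x + dot (rowC row) us

theorem S_pos : (0 : ℝ) < ((S : ℤ) : ℝ) := by norm_num [S]

theorem S_ne : ((S : ℤ) : ℂ) ≠ 0 := by
  have := S_pos
  exact_mod_cast this.ne'

theorem norm_S : ‖((S : ℤ) : ℂ)‖ = ((S : ℤ) : ℝ) := by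
  rw [Complex.norm_intCast, abs_of_pos S_pos]

theorem S_toC (x : ℤ × ℤ) : ((S : ℤ) : ℂ) * toC x = ⟨(x.1 : ℝ), (x.2 : ℝ)⟩ := by
  unfold toC
  rw [mul_comm, div_mul_cancel₀ _ S_ne]

theorem norm_mk_le (a b : ℤ) : ‖(⟨(a : ℝ), (b : ℝ)⟩ : ℂ)‖ ≤ (n1 a b : ℝ) := by
  unfold n1
  push_cast
  exact Complex.norm_le_abs_re_add_abs_im _

theorem dot_sub : ∀ (as us vs : List ℂ), us.length = vs.length →
    dot as us - dot as vs = dot as (List.zipWith (· - ·) us vs)
  | [], _, _, _ => by simp [dot]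
  | _ :: _, [], [], _ => by simp [dot]
  | a :: as, u :: us, v :: vs, h => by
    simp only [List.length_cons, Nat.add_right_cancel_iff] at h
    simp only [dot, List.zipWith_cons_cons, ← dot_sub as us vs h]
    ring

theorem dot_bound (E : ℝ) : ∀ (row : List (ℤ × ℤ)) (us : List ℂ),
    (∀ u ∈ us, ‖u‖ ≤ E) → 0 ≤ E → ((S : ℤ) : ℝ) * ‖dot (rowC row) us‖ ≤ (rowN row : ℝ) * E
  | [], _, _, _ => by simp [rowC, dot, rowN]
  | y :: t, [], _, hE => by
    have h0 : ∀ row : List (ℤ × ℤ), 0 ≤ rowN row := by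
      intro row
      induction row with
      | nil => simp [rowN]
      | cons y t ih => unfold rowN n1; positivity
    have : (0 : ℝ) ≤ (rowN (y :: t) : ℝ) := by exact_mod_cast h0 _
    simp only [rowC, List.map_cons, dot, norm_zero, mul_zero]
    positivity
  | y :: t, u :: us, h, hE => by
    have ih := dot_bound E t us (fun v hv => h v (List.mem_cons_of_mem _ hv)) hE
    have h1 : ((S : ℤ) : ℝ) * ‖toC (y.1 * sc, y.2 * sc)‖ ≤ (n1 (y.1 * sc) (y.2 * sc) : ℝ) := by
      rw [← norm_S, ← norm_mul, S_toC]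
      exact norm_mk_le _ _
    have h2 : ‖u‖ ≤ E := h u List.mem_cons_self
    have h3 : (0 : ℝ) ≤ (n1 (y.1 * sc) (y.2 * sc) : ℝ) := (mul_nonneg S_pos.le (norm_nonneg _)).trans h1
    simp only [rowC, List.map_cons, dot, rowN]
    push_cast
    calc ((S : ℤ) : ℝ) * ‖toC (y.1 * sc, y.2 * sc) * u + dot (rowC t) us‖
        ≤ ((S : ℤ) : ℝ) * (‖toC (y.1 * sc, y.2 * sc)‖ * ‖u‖ + ‖dot (rowC t) us‖) := by
          refine mul_le_mul_of_nonneg_left ?_ S_pos.le
          exact (norm_add_le _ _).trans (by rw [norm_mul])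
      _ = (((S : ℤ) : ℝ) * ‖toC (y.1 * sc, y.2 * sc)‖) * ‖u‖ + ((S : ℤ) : ℝ) * ‖dot (rowC t) us‖ := by
          ring
      _ ≤ (n1 (y.1 * sc) (y.2 * sc) : ℝ) * E + (rowN t : ℝ) * E := by
          refine add_le_add (mul_le_mul h1 h2 (norm_nonneg _) h3) ih
      _ = _ := by ring

/-- the radius of the ball -/
noncomputable def epsR : ℝ := (eps : ℝ) / ((S : ℤ) : ℝ)

theorem epsR_pos : 0 < epsR := by
  unfold epsR
  have : (0 : ℝ) < (eps : ℝ) := by norm_num [eps]
  exact div_pos this S_pos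

theorem floor_bd (a b : ℤ) (hb : 0 < b) : (a : ℝ) / (b : ℝ) ≤ ((a / b + 1 : ℤ) : ℝ) := by
  have hb' : (0 : ℝ) < (b : ℝ) := by exact_mod_cast hb
  rw [div_le_iff₀ hb']
  have h := Int.lt_ediv_add_one_mul_self a hb
  exact_mod_cast h.le

/-- the variables are good on the ball -/
theorem good_mkX (x : ℤ × ℤ) (row : List (ℤ × ℤ)) (hr : row.length = 16) :
    Good {u : Fin 16 → ℂ | ‖u‖ ≤ epsR} (fun u v => List.ofFn fun l => u l - v l) 16 (mkX x row)
      (fun u => xval x row (List.ofFn u)) := by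
  refine ⟨by simp [mkX, hr], fun _ => ⟨?_, ?_⟩⟩
  · intro u hu
    have h1 := dot_bound epsR row (List.ofFn u) (by
      intro v hv
      rw [List.mem_ofFn] at hv
      obtain ⟨l, rfl⟩ := hv
      exact (norm_le_pi_norm u l).trans hu) epsR_pos.le
    unfold CI.mem CI.c mkX xval
    simp only
    rw [mul_add, S_toC, add_sub_cancel_left, norm_mul, norm_S]
    refine h1.trans ?_
    have := floor_bd (rowN row * eps) S (by norm_num [S])
    refine le_trans (le_of_eq ?_) this
    unfold epsR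
    push_cast
    ring
  · intro u _ v _
    refine ⟨rowC row, ?_, ?_⟩
    · unfold mkX rowC
      simp only
      rw [List.forall₂_map_left_iff, List.forall₂_map_right_iff, List.forall₂_same]
      intro y _
      unfold CI.mem CI.c
      simp only
      rw [S_toC, sub_self, norm_zero]
      simp
    · unfold xval
      rw [add_sub_add_left_eq_sub, dot_sub _ _ _ (by simp)]
      congr 1

/-- the variables at the centre -/
theorem good_mkX0 (x : ℤ × ℤ) (row : List (ℤ × ℤ)) :
    Good {u : Fin 16 → ℂ | u = 0} (fun _ _ => []) 0 (mkX0 x)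
      (fun u => xval x row (List.ofFn u)) := by
  have h0 : ∀ (as : List ℂ) (us : List ℂ), (∀ u ∈ us, u = 0) → dot as us = 0 := by
    intro as
    induction as with
    | nil => intro us _; simp [dot]
    | cons a as ih =>
      intro us h
      cases us with
      | nil => simp [dot]
      | cons u us =>
        simp only [dot]
        rw [h u List.mem_cons_self, ih us (fun v hv => h v (List.mem_cons_of_mem _ hv))]
        ring
  have hx : ∀ u : Fin 16 → ℂ, u = 0 → xval x row (List.ofFn u) = toC x := by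
    rintro u rfl
    unfold xval
    rw [h0, add_zero]
    intro u hu
    rw [List.mem_ofFn] at hu
    obtain ⟨l, rfl⟩ := hu
    rfl
  refine ⟨by simp [mkX0], fun _ => ⟨?_, ?_⟩⟩
  · intro u hu
    simp only
    rw [hx u hu]
    unfold CI.mem CI.c mkX0
    simp only
    rw [S_toC, sub_self, norm_zero]
    simp
  · intro u hu v hv
    refine ⟨[], by simp [mkX0], ?_⟩
    simp only
    rw [hx u hu, hx v hv, sub_self]
    simp [dot]

end Pool.Agent.T2H75.CF
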