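import Pool.Agent.T2H75.CF.Snd

/-!
Project CF (MP_11e9c7_an, helper75): existence of the solution.
-/

set_option autoImplicit false

open Polynomial

namespace Pool.Agent.T2H75.CF

/-- the ball -/
def Bal : Set (Fin 16 → ℂ) := {u | ‖u‖ ≤ epsR}
/-- the differences -/
noncomputable def LL (u v : Fin 16 → ℂ) : List ℂ := List.ofFn fun l => u l - v l
/-- the centre -/
def Cen : Set (Fin 16 → ℂ) := {u | u = 0}

/-- the 16 variables as functions of `u` -/
noncomputable def FS : List ((Fin 16 → ℂ) → ℂ) :=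
  List.zipWith (fun x row u => xval x row (List.ofFn u)) X0 Y0

theorem forall₂_zip {α β γ δ : Type} (R : γ → δ → Prop) (f : α → β → γ) (g : α → β → δ) :
    ∀ (xs : List α) (ys : List β), (∀ x, ∀ y ∈ ys, R (f x y) (g x y)) →
      List.Forall₂ R (List.zipWith f xs ys) (List.zipWith g xs ys)
  | [], _, _ => by simp
  | _ :: _, [], _ => by simp
  | x :: xs, y :: ys, h => by
    simp only [List.zipWith_cons_cons]
    exact List.Forall₂.cons (h x y List.mem_cons_self)
      (forall₂_zip R f g xs ys fun x y hy => h x y (List.mem_cons_of_mem _ hy))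

theorem zip_map_left {α β γ : Type} (f : α → γ) : ∀ (xs : List α) (ys : List β),
    xs.length = ys.length → xs.map f = List.zipWith (fun x _ => f x) xs ys
  | [], [], _ => by simp
  | x :: xs, y :: ys, h => by
    simp only [List.length_cons, Nat.add_right_cancel_iff] at h
    simp [zip_map_left f xs ys h]

theorem good_XS : List.Forall₂ (Good Bal LL 16) XS FS :=
  forall₂_zip _ _ _ _ _ fun x y hy => good_mkX x y (hlen.2.2 y hy)

theorem good_XP : List.Forall₂ (Good Cen (fun _ _ => []) 0) XP FS := by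
  unfold XP
  rw [zip_map_left mkX0 X0 Y0 (by rw [hlen.1, hlen.2.1])]
  exact forall₂_zip _ _ _ _ _ fun x y _ => good_mkX0 x y

noncomputable def FB : List ((Fin 16 → ℂ) → ℂ) := FS.take 8
noncomputable def FZ : List ((Fin 16 → ℂ) → ℂ) := FS.drop 8

theorem FS_length : FS.length = 16 := by
  unfold FS
  rw [List.length_zipWith, hlen.1, hlen.2.1]
  rfl

theorem FB_length : FB.length = 8 := by
  unfold FB
  rw [List.length_take, FS_length]
  rfl

theorem FZ_length : FZ.length = 8 := by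
  unfold FZ
  rw [List.length_drop, FS_length]

theorem good_BS : List.Forall₂ (Good Bal LL 16) BS FB := List.forall₂_take 8 good_XS
theorem good_ZS : List.Forall₂ (Good Bal LL 16) ZS FZ := List.forall₂_drop 8 good_XS
theorem good_BP : List.Forall₂ (Good Cen (fun _ _ => []) 0) BP FB := List.forall₂_take 8 good_XP
theorem good_ZP : List.Forall₂ (Good Cen (fun _ _ => []) 0) ZP FZ := List.forall₂_drop 8 good_XP

theorem dot_ofFn : ∀ {n : ℕ} (a w : Fin n → ℂ),
    dot (List.ofFn a) (List.ofFn w) = ∑ l, a l * w l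
  | 0, _, _ => by simp [dot]
  | n + 1, a, w => by
    rw [List.ofFn_succ, List.ofFn_succ, Fin.sum_univ_succ]
    simp only [dot]
    rw [dot_ofFn]

theorem mem_norm {A : CI} {a : ℂ} (h : A.mem a) :
    ((S : ℤ) : ℝ) * ‖a‖ ≤ ((n1 A.re A.im + A.r : ℤ) : ℝ) := by
  have h1 : ‖((S : ℤ) : ℂ) * a‖ ≤ ‖((S : ℤ) : ℂ) * a - A.c‖ + ‖A.c‖ := by
    have := norm_add_le (((S : ℤ) : ℂ) * a - A.c) A.c
    rwa [sub_add_cancel] at this
  rw [norm_mul, norm_S] at h1
  have h2 : ‖A.c‖ ≤ (n1 A.re A.im : ℝ) := norm_mk_le _ _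
  unfold CI.mem at h
  push_cast
  linarith

theorem mem_norm_one {A : CI} {a : ℂ} (h : A.mem a) :
    ((S : ℤ) : ℝ) * ‖1 - a‖ ≤ ((n1 (S - A.re) A.im + A.r : ℤ) : ℝ) := by
  have h1 : ((S : ℤ) : ℝ) * ‖1 - a‖ = ‖(((S : ℤ) : ℂ) - A.c) - (((S : ℤ) : ℂ) * a - A.c)‖ := by
    rw [← norm_S, ← norm_mul]
    congr 1
    ring
  have h2 : ‖((S : ℤ) : ℂ) - A.c‖ ≤ (n1 (S - A.re) A.im : ℝ) := by
    have e : ((S : ℤ) : ℂ) - A.c = -⟨((-(S - A.re) : ℤ) : ℝ), (A.im : ℝ)⟩ := by
      apply Complex.ext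
      · simp [CI.c]
      · simp [CI.c]
    rw [e, norm_neg]
    refine (norm_mk_le _ _).trans (le_of_eq ?_)
    unfold n1
    rw [abs_neg]
  rw [h1]
  have h3 := norm_sub_le (((S : ℤ) : ℂ) - A.c) (((S : ℤ) : ℂ) * a - A.c)
  unfold CI.mem at h
  push_cast
  linarith

theorem rowsumz_bd : ∀ {n : ℕ} (a : Fin n → ℂ) (s : List CI),
    List.Forall₂ CI.mem s (List.ofFn a) →
    ((S : ℤ) : ℝ) * ∑ l, ‖a l‖ ≤ ((rowsum.rowsumz s : ℤ) : ℝ)
  | 0, a, s, h => by
    simp only [List.ofFn_zero, List.forall₂_nil_right_iff] at h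
    subst h
    simp [rowsum.rowsumz]
  | n + 1, a, s, h => by
    rw [List.ofFn_succ] at h
    obtain ⟨A, t, h1, h2, rfl⟩ := List.forall₂_cons_right_iff.1 h
    have ih := rowsumz_bd _ t h2
    rw [Fin.sum_univ_succ, mul_add]
    simp only [rowsum.rowsumz]
    have h3 := mem_norm h1
    push_cast at h3 ⊢
    linarith

theorem rowsum_bd : ∀ {n : ℕ} (a : Fin n → ℂ) (s : List CI) (i : ℕ),
    List.Forall₂ CI.mem s (List.ofFn a) → i < n →
    ((S : ℤ) : ℝ) * ∑ l : Fin n, ‖(if i = (l : ℕ) then 1 else 0) - a l‖ ≤ ((rowsum i s : ℤ) : ℝ)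
  | 0, a, s, i, h, hi => absurd hi (Nat.not_lt_zero _)
  | n + 1, a, s, 0, h, hi => by
    rw [List.ofFn_succ] at h
    obtain ⟨A, t, h1, h2, rfl⟩ := List.forall₂_cons_right_iff.1 h
    have ih := rowsumz_bd _ t h2
    rw [Fin.sum_univ_succ, mul_add]
    simp only [rowsum]
    have h3 := mem_norm_one h1
    have e : ∑ l : Fin n, ‖(if 0 = ((Fin.succ l : Fin (n + 1)) : ℕ) then (1 : ℂ) else 0) - a l.succ‖
        = ∑ l : Fin n, ‖a l.succ‖ := by
      refine Finset.sum_congr rfl fun l _ => ?_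
      rw [if_neg (by simp), zero_sub, norm_neg]
    rw [e]
    simp only [Fin.val_zero, if_true]
    push_cast at h3 ⊢
    linarith
  | n + 1, a, s, i + 1, h, hi => by
    rw [List.ofFn_succ] at h
    obtain ⟨A, t, h1, h2, rfl⟩ := List.forall₂_cons_right_iff.1 h
    have ih := rowsum_bd _ t i h2 (Nat.lt_of_succ_lt_succ hi)
    rw [Fin.sum_univ_succ, mul_add]
    simp only [rowsum]
    have h3 := mem_norm h1
    have e : ∑ l : Fin n, ‖(if i + 1 = ((Fin.succ l : Fin (n + 1)) : ℕ) then (1 : ℂ) else 0) - a l.succ‖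
        = ∑ l : Fin n, ‖(if i = (l : ℕ) then (1 : ℂ) else 0) - a l.succ‖ := by
      refine Finset.sum_congr rfl fun l _ => ?_
      simp
    rw [e]
    have e2 : ‖(if i + 1 = ((0 : Fin (n + 1)) : ℕ) then (1 : ℂ) else 0) - a 0‖ = ‖a 0‖ := by
      rw [if_neg (by simp), zero_sub, norm_neg]
    rw [e2]
    push_cast at h3 ⊢
    linarith

/-- the slope condition of the contraction theorem for the row `i` -/
def Row (i : ℕ) (f : (Fin 16 → ℂ) → ℂ) : Prop :=
  ∀ u v : Fin 16 → ℂ, ‖u‖ ≤ epsR → ‖v‖ ≤ epsR → ∃ a : Fin 16 → ℂ,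
    ∑ l : Fin 16, ‖(if i = (l : ℕ) then 1 else 0) - a l‖ ≤ 1 / 2 ∧
    f u - f v = ∑ l, a l * (u l - v l)

theorem row_of {i : ℕ} (hi : i < 16) {X : SL} {f : (Fin 16 → ℂ) → ℂ} (h : Good Bal LL 16 X f)
    (h1 : X.ok = true) (h2 : 2 * rowsum i X.s ≤ S) : Row i f := by
  intro u v hu hv
  obtain ⟨as, ha, he⟩ := (h.2 h1).2 u hu v hv
  have hl : as.length = 16 := by rw [← ha.length_eq, h.1]
  set a : Fin 16 → ℂ := fun l => as[(l : ℕ)]'(by rw [hl]; exact l.2) with haa
  have hofn : List.ofFn a = as := by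
    apply List.ext_getElem
    · simp [hl]
    · intro j h1 h2
      rw [List.getElem_ofFn]
  refine ⟨a, ?_, ?_⟩
  · have := rowsum_bd a X.s i (by rw [hofn]; exact ha) hi
    have h3 : (2 : ℝ) * (rowsum i X.s : ℝ) ≤ ((S : ℤ) : ℝ) := by exact_mod_cast h2
    have hS := S_pos
    by_contra hcon
    push Not at hcon
    have := mul_lt_mul_of_pos_left hcon hS
    linarith
  · rw [he, ← hofn]
    exact dot_ofFn _ _

theorem small_of {X : SL} {f : (Fin 16 → ℂ) → ℂ} (h : Good Cen (fun _ _ => []) 0 X f)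
    (h1 : small X = true) : ‖f 0‖ ≤ epsR / 2 := by
  unfold small at h1
  rw [Bool.and_eq_true, decide_eq_true_eq] at h1
  have h2 := mem_norm ((h.2 h1.1).1 0 rfl)
  have h3 : (2 : ℝ) * ((n1 X.v.re X.v.im + X.v.r : ℤ) : ℝ) ≤ (eps : ℝ) := by exact_mod_cast h1.2
  have hS := S_pos
  unfold epsR
  rw [div_div, le_div_iff₀ (by positivity)]
  linarith

theorem chkH_of (hS : S_SLG) : ∀ (zs : List SL) (gs : List ((Fin 16 → ℂ) → ℂ)) (i : ℕ),
    List.Forall₂ (Good Bal LL 16) zs gs → i + gs.length ≤ 16 → chkH i zs = true →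
    ∀ j (h : j < gs.length), Row (i + j) (fun u => cH 10 (gs[j] u) (FB.map fun g => g u)) := by
  intro zs gs i h
  induction h generalizing i with
  | nil => intro _ _ j h; simp at h
  | cons h1 _ ih =>
    intro hle hc j hj
    simp only [chkH, Bool.and_eq_true, decide_eq_true_eq] at hc
    cases j with
    | zero =>
      simp only [List.length_cons] at hle
      exact row_of (by omega) (good_H hS 10 h1 good_BS) hc.1.1 hc.1.2
    | succ j =>
      simp only [List.length_cons, Nat.add_lt_add_iff_right] at hj hle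
      have := ih (i + 1) (by omega) hc.2 j hj
      rw [show i + (j + 1) = i + 1 + j by ring]
      exact this

theorem chkE_of (hS : S_SLG) : ∀ (zs : List SL) (gs : List ((Fin 16 → ℂ) → ℂ)) (i : ℕ),
    List.Forall₂ (Good Bal LL 16) zs gs → i + gs.length ≤ 16 → chkE i zs = true →
    ∀ j (h : j < gs.length), Row (i + j) (fun u => cE 1025 (gs[j] u) (FB.map fun g => g u)) := by
  intro zs gs i h
  induction h generalizing i with
  | nil => intro _ _ j h; simp at h
  | cons h1 _ ih =>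
    intro hle hc j hj
    simp only [chkE, Bool.and_eq_true, decide_eq_true_eq] at hc
    cases j with
    | zero =>
      simp only [List.length_cons] at hle
      exact row_of (by omega) (good_E hS 1025 h1 good_BS) hc.1.1 hc.1.2
    | succ j =>
      simp only [List.length_cons, Nat.add_lt_add_iff_right] at hj hle
      have := ih (i + 1) (by omega) hc.2 j hj
      rw [show i + (j + 1) = i + 1 + j by ring]
      exact this

theorem chkH0_of (hS : S_SLG) : ∀ (zs : List SL) (gs : List ((Fin 16 → ℂ) → ℂ)),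
    List.Forall₂ (Good Cen (fun _ _ => []) 0) zs gs → chkH0 zs = true →
    ∀ g ∈ gs, ‖cH 10 (g 0) (FB.map fun g => g 0)‖ ≤ epsR / 2 := by
  intro zs gs h
  induction h with
  | nil => intro _ g hg; simp at hg
  | cons h1 _ ih =>
    intro hc g hg
    simp only [chkH0, Bool.and_eq_true] at hc
    rcases List.mem_cons.1 hg with rfl | hg
    · exact small_of (good_H hS 10 h1 good_BP) hc.1
    · exact ih hc.2 g hg

theorem chkE0_of (hS : S_SLG) : ∀ (zs : List SL) (gs : List ((Fin 16 → ℂ) → ℂ)),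
    List.Forall₂ (Good Cen (fun _ _ => []) 0) zs gs → chkE0 zs = true →
    ∀ g ∈ gs, ‖cE 1025 (g 0) (FB.map fun g => g 0)‖ ≤ epsR / 2 := by
  intro zs gs h
  induction h with
  | nil => intro _ g hg; simp at hg
  | cons h1 _ ih =>
    intro hc g hg
    simp only [chkE0, Bool.and_eq_true] at hc
    rcases List.mem_cons.1 hg with rfl | hg
    · exact small_of (good_E hS 1025 h1 good_BP) hc.1
    · exact ih hc.2 g hg

/-- existence of the solution in the boxes -/
theorem exists_sol (hS : S_SLG) (hF : S_FKP) : ∃ u : Fin 16 → ℂ, ‖u‖ ≤ epsR ∧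
    ∀ g ∈ FZ, cH 10 (g u) (FB.map fun g => g u) = 0 ∧ cE 1025 (g u) (FB.map fun g => g u) = 0 := by
  have lz := FZ_length
  set F : Fin 16 → (Fin 16 → ℂ) → ℂ := fun i u =>
    if h : (i : ℕ) < 8 then cH 10 ((FZ[(i : ℕ)]'(by omega)) u) (FB.map fun g => g u)
    else cE 1025 ((FZ[(i : ℕ) - 8]'(by omega)) u) (FB.map fun g => g u) with hFdef
  obtain ⟨u, hu, hz⟩ := hF 16 F epsR epsR_pos (by
    intro i
    by_cases h : (i : ℕ) < 8
    · have := chkH_of hS _ _ 0 good_ZS (by rw [lz]; norm_num) hH i (by rw [lz]; exact h)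
      intro u v hu hv
      obtain ⟨a, h1, h2⟩ := this u v hu hv
      refine ⟨a, ?_, ?_⟩
      · refine le_trans (le_of_eq ?_) h1
        refine Finset.sum_congr rfl fun l _ => ?_
        simp [Fin.ext_iff]
      · simp only [hFdef, dif_pos h]
        exact h2
    · have := chkE_of hS _ _ 8 good_ZS (by rw [lz]) hE ((i : ℕ) - 8) (by rw [lz]; omega)
      intro u v hu hv
      obtain ⟨a, h1, h2⟩ := this u v hu hv
      refine ⟨a, ?_, ?_⟩
      · refine le_trans (le_of_eq ?_) h1
        refine Finset.sum_congr rfl fun l _ => ?_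
        have : 8 + ((i : ℕ) - 8) = i := by omega
        simp [Fin.ext_iff, this]
      · simp only [hFdef, dif_neg h]
        exact h2) (by
    intro i
    by_cases h : (i : ℕ) < 8
    · simp only [hFdef, dif_pos h]
      exact chkH0_of hS _ _ good_ZP hH0 _ (List.getElem_mem _)
    · simp only [hFdef, dif_neg h]
      exact chkE0_of hS _ _ good_ZP hE0 _ (List.getElem_mem _))
  refine ⟨u, hu, fun g hg => ?_⟩
  obtain ⟨j, hj, rfl⟩ := List.getElem_of_mem hg
  have hj8 : j < 8 := by omega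
  constructor
  · have := hz ⟨j, by omega⟩
    simpa [hFdef, hj8] using this
  · have := hz ⟨8 + j, by omega⟩
    simp only [hFdef] at this
    rw [dif_neg (by omega)] at this
    have e2 : ∀ (n : ℕ) (hn : n < FZ.length), n = j → FZ[n]'hn = FZ[j] := by
      rintro n hn rfl
      rfl
    rw [e2 _ _ (by change 8 + j - 8 = j; omega)] at this
    exact this

end Pool.Agent.T2H75.CF
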