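import Pool.Agent.T2H75.CF.Defs

/-!
# Project CF (MP_11e9c7_an, owner helper75): packages

The conjecture (Q1 of MP_11e9c7_an) is FALSE.  Counterexample of degree `d = 1033`:
`f(z) = z^1025 ∏_{j<8} (1 - b_j z)/(z - b_j)`.  The numerical certificate (Krawczyk / Newton with
slopes, disc arithmetic with integers, evaluated by the kernel in seconds) is finished; what is
missing are the soundness lemmas and the algebra:

* `CIM`  (20 min): `S_CIM` soundness of add, sub, neg, smul, mul of discs.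
* `CII`  (25 min): `S_CII` soundness of the inverse of a disc.
* `SLG`  (35 min): `S_SLG` soundness of the slope arithmetic (uses `S_CIM`, `S_CII` as hypotheses).
* `ALG1` (25 min): `S_ALG1` the Wronskian of the two polynomials at a point.
* `ALG2` (50 min): `S_ALG2` (uses `S_ALG1`): a solution of the equations is a critically fixed map.
* `FKP`  (25 min): `S_FKP` Newton-Kantorovich with slopes (contraction mapping).
-/

set_option autoImplicit false

open Polynomial

namespace Pool.Agent.T2H75.CF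

/-- PACKAGE CIM.  `mem` is `‖S z - c‖ ≤ r`, where `c = re + i im` (integers!).
Proofs: `add`, `sub`, `neg`, `smul` are the triangle inequality.  `mul`: with `c_1, c_2` the centres,
`S z = c_1 + e_1`, `S w = c_2 + e_2`, `|e_i| ≤ r_i`: `S (z w) = c_1 c_2 / S + (c_1 e_2 + e_1 c_2 + e_1 e_2)/S`
and `|c_1| ≤ n1 re im`; for an integer `x`, `x / S` (integer floor division, `Int.ediv`, `S > 0`)
satisfies `x/S - 1 < (x / S : ℤ) ≤ x/S` in `ℝ`; so the centre is rounded by at most `1` in each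
coordinate (norm at most `2`) and the radius by at most `1`: total `3`.  The radii are `≥ 0` because
they bound a norm. -/
def S_CIM : Prop :=
  (∀ (A B : CI) (z w : ℂ), A.mem z → B.mem w → (A.add B).mem (z + w)) ∧
  (∀ (A B : CI) (z w : ℂ), A.mem z → B.mem w → (A.sub B).mem (z - w)) ∧
  (∀ (A : CI) (z : ℂ), A.mem z → A.neg.mem (-z)) ∧
  (∀ (k : ℕ) (A : CI) (z : ℂ), A.mem z → (A.smul k).mem ((k : ℂ) * z)) ∧
  (∀ (A B : CI) (z w : ℂ), A.mem z → B.mem w → (A.mul B).mem (z * w))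

/-- PACKAGE CII.  `A.lo = max |re| |im| - r > 0` is a lower bound of `|S z|` (because
`max |re| |im| ≤ |c|`), so `z ≠ 0`.  For ANY integers `x, y` put `δ = x + i y`, `S z = c + e`, `|e| ≤ r`:
`S z⁻¹ - δ = S²/(c + e) - δ = (S² - δ c - δ e)/(c + e)`, and `|S² - δ c| ≤ n1 (S*S - (re x - im y)) (re y + im x)`,
`|δ e| ≤ n1 x y * r`, `|c + e| ≥ A.lo`; the `+ 1` pays for the floor division. -/
def S_CII : Prop :=
  (∀ (A : CI) (z : ℂ), A.mem z → 0 < A.lo → z ≠ 0) ∧
  (∀ (A : CI) (x y : ℤ) (z : ℂ), A.mem z → 0 < A.lo → (A.invc x y).mem z⁻¹)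

/-- scalar product of two lists (the shorter length counts) -/
noncomputable def dot : List ℂ → List ℂ → ℂ
  | a :: as, b :: bs => a * b + dot as bs
  | _, _ => 0

/-- `X` describes the function `f` on the set `B`: if `X.ok`, then the values on `B` are in `X.v`
and the difference of two values has slopes in `X.s` (with respect to the differences `L u v` of the
variables). -/
def Good {α : Type} (B : Set α) (L : α → α → List ℂ) (n : ℕ) (X : SL) (f : α → ℂ) : Prop :=
  X.s.length = n ∧ (X.ok = true →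
    (∀ u ∈ B, X.v.mem (f u)) ∧
    ∀ u ∈ B, ∀ v ∈ B, ∃ as : List ℂ, List.Forall₂ CI.mem X.s as ∧ f u - f v = dot as (L u v))

/-- PACKAGE SLG.  All by `List` inductions (`dot` of `zipWith`, `map`, `replicate`; `Forall₂` gives
the equality of the lengths).  The slope of a product: `f u g u - f v g v = f u (g u - g v) + (f u - f v) g v`;
the slope of the inverse: `1/f u - 1/f v = -(f u - f v) (f u)⁻¹ (f v)⁻¹`. `CI.inv` is `CI.invc` for
special `x y`. -/
def S_SLG : Prop := ∀ (α : Type) (B : Set α) (L : α → α → List ℂ) (n : ℕ),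
  Good B L n (SL.one n) (fun _ => 1) ∧
  (∀ (X Y : SL) (f g : α → ℂ), Good B L n X f → Good B L n Y g →
    Good B L n (X.sub Y) (fun u => f u - g u)) ∧
  (∀ (k : ℕ) (X : SL) (f : α → ℂ), Good B L n X f →
    Good B L n (X.smul k) (fun u => (k : ℂ) * f u)) ∧
  (∀ (X Y : SL) (f g : α → ℂ), Good B L n X f → Good B L n Y g →
    Good B L n (X.mul Y) (fun u => f u * g u)) ∧
  (∀ (X : SL) (f : α → ℂ), Good B L n X f →
    Good B L n X.inv (fun u => (f u)⁻¹))

/-- PACKAGE FKP.  Newton-Kantorovich with slopes: contraction mapping for `T u = u - F u` on the closed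
ball of radius `ε` in `Fin N → ℂ` (sup norm).  Template: theorem `H537R3.Chess.nk` in
`Pool/Agent/H537R3/Chess/NK.lean` (same proof, simpler). -/
def S_FKP : Prop := ∀ (N : ℕ) (F : Fin N → (Fin N → ℂ) → ℂ) (ε : ℝ), 0 < ε →
  (∀ i, ∀ u v : Fin N → ℂ, ‖u‖ ≤ ε → ‖v‖ ≤ ε → ∃ a : Fin N → ℂ,
    ∑ l, ‖(if i = l then 1 else 0) - a l‖ ≤ 1 / 2 ∧ F i u - F i v = ∑ l, a l * (u l - v l)) →
  (∀ i, ‖F i 0‖ ≤ ε / 2) →
  ∃ u : Fin N → ℂ, ‖u‖ ≤ ε ∧ ∀ i, F i u = 0

/-- numerator -/
noncomputable def Pp (m k : ℕ) (b : Fin m → ℂ) : ℂ[X] := X ^ k * ∏ j, (1 - C (b j) * X)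
/-- denominator -/
noncomputable def Qp (m : ℕ) (b : Fin m → ℂ) : ℂ[X] := ∏ j, (X - C (b j))
/-- The Wronskian `P' Q - P Q'`. -/
noncomputable def wr (P Q : ℂ[X]) : ℂ[X] := derivative P * Q - P * derivative Q

/-- PACKAGE ALG1.  `W/(P Q) = P'/P - Q'/Q` and the logarithmic derivatives of products
(`Polynomial.derivative_prod`, or an induction over `Finset`, or `logDeriv_prod`):
`-b/(1 - b z) - 1/(z - b) = -(1 - b²)/((1 - b z)(z - b))`. The second part: the value at `1`. -/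
def S_ALG1 : Prop := ∀ (m k : ℕ) (b : Fin m → ℂ) (z : ℂ), 1 ≤ k → z ≠ 0 →
  (∀ j, 1 - b j * z ≠ 0) → (∀ j, z - b j ≠ 0) →
  (wr (Pp m k b) (Qp m b)).eval z = (Pp m k b).eval z * (Qp m b).eval z *
    ((k : ℂ) / z - ∑ j, (1 - b j ^ 2) / ((1 - b j * z) * (z - b j)))

/-- `P / Q` is a critically fixed rational map of degree `d`: `P`, `Q` are coprime with
`max (deg P) (deg Q) = d`, every critical point `z ∈ ℂ` (zero of the Wronskian `P' Q - P Q'`; this
includes the multiple poles) is fixed, and if `∞` is critical (the Wronskian has fewer than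
`2 d - 2` zeros in `ℂ` counted with multiplicity), then `∞` is fixed (`deg Q < d`). -/
structure IsCritFixed (P Q : ℂ[X]) (d : ℕ) : Prop where
  coprime : IsCoprime P Q
  deg : max P.natDegree Q.natDegree = d
  fin : ∀ z, (wr P Q).eval z = 0 → P.eval z = z * Q.eval z
  inf : (wr P Q).natDegree < 2 * d - 2 → Q.natDegree < d

/-- PACKAGE ALG2.  Proof.  `P = X^k ∏ (1 - b_j X)` has degree `k + m` (leading coefficient
`∏ (-b_j)`), `Q = ∏ (X - b_j)` has degree `m`; coprime because they have no common root (`b_j ≠ 0`,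
`b_i b_j ≠ 1`); `inf` is trivial (`m < k + m`).  `W = wr P Q = X^(k-1) W₁` (`X^(k-1)` divides `P'`
and `P`) and `W ≠ 0` (otherwise `P ∣ P' Q`, `P ∣ P'` by coprimality, `P' = 0`, but `natDegree P > 0`),
`natDegree W ≤ k + 2 m - 1`, so `W₁ ≠ 0` has at most `2 m` roots.  The `2 m` numbers `z_i`, `z_i⁻¹`
are pairwise different (`z_i ≠ z_j`, `z_i z_j ≠ 1` also for `i = j`), and they are roots of `W` by
`ALG1` and the second equation: `(1 - z²)(k/z - ∑ (1-b²)/((1-bz)(z-b))) = k (1/z - z) - ∑ (q - 1/q)` with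
`q = (1 - b z)/(z - b)`; note that for `1/z` both sides change sign and `q(1/z) = 1/q(z)`.  So a root
`w ≠ 0` of `W` is one of them, and it is fixed by the first equation (`P(z) = z Q(z)`; for `1/z`:
`P(1/z)/Q(1/z) = Q(z)/P(z)`).  The root `0` is fixed because `k ≥ 1`.  The last statement is `ALG1` at
`z = 1`, where `P(1) = Q(1) ≠ 0` and `(1 - b²)/((1 - b)(1 - b)) = (1 + b)/(1 - b)`. -/
def S_ALG2 : Prop := ∀ (m k : ℕ) (b z : Fin m → ℂ), 2 ≤ k →
  (∀ j, b j ≠ 0) → (∀ i j, 1 - b i * b j ≠ 0) → (∀ j, 1 - b j ≠ 0) →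
  (∀ i, z i ≠ 0) → (∀ i j, 1 - b j * z i ≠ 0) → (∀ i j, z i - b j ≠ 0) →
  (∀ i j, i ≠ j → z i - z j ≠ 0) → (∀ i j, 1 - z i * z j ≠ 0) →
  (∀ i, z i ^ (k - 1) * ∏ j, ((1 - b j * z i) * (z i - b j)⁻¹) = 1) →
  (∀ i, (k : ℂ) * ((z i)⁻¹ - z i)
    = ∑ j, ((1 - b j * z i) * (z i - b j)⁻¹ - (z i - b j) * (1 - b j * z i)⁻¹)) →
  IsCritFixed (Pp m k b) (Qp m b) (k + m) ∧ (Pp m k b).eval 1 = (Qp m b).eval 1 ∧
    (Qp m b).eval 1 ≠ 0 ∧
    (wr (Pp m k b) (Qp m b)).eval 1 / ((Qp m b).eval 1) ^ 2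
      = (k : ℂ) - ∑ j, (1 + b j) / (1 - b j)

end Pool.Agent.T2H75.CF
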